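import Pool.Agent.H76.THR.Path

/-!
# The threshold lemma: averaging over the distance from the diagonal
-/

set_option autoImplicit false

namespace Pool.THR2

open Finset

variable {p : ℤ → ℤ → ℤ} {g : ℤ → ℤ} {K C Q A B u : ℤ} {V : ℤ → ℤ → Prop}

/-- A row is reached at most `C + 1` radii long. -/
theorem Zn.fibre (hZ : Zn p g K C Q A B) {w q₀ : ℤ} {M : ℕ} (hA : A ≤ w) (hB : w ≤ B)
    (hq : 0 ≤ q₀) (hQ : q₀ + M ≤ Q) (Y : Finset ℤ) :
    (((range M).filter fun k : ℕ => p (w + (q₀ + k)) w ∈ Y).card : ℤ) ≤ (C + 1) * Y.card := by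
  classical
  have hC := hZ.C0
  have h1 : ((range M).filter fun k : ℕ => p (w + (q₀ + k)) w ∈ Y).card ≤
      ∑ P ∈ Y, ((range M).filter fun k : ℕ => p (w + (q₀ + k)) w = P).card := by
    rw [← Finset.card_biUnion]
    · refine Finset.card_le_card fun k hk => ?_
      rw [Finset.mem_filter] at hk
      exact Finset.mem_biUnion.2 ⟨_, hk.2, Finset.mem_filter.2 ⟨hk.1, rfl⟩⟩
    · intro P _ P' _ hne
      refine Finset.disjoint_left.2 fun k hk hk' => hne ?_
      rw [Finset.mem_filter] at hk hk'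
      exact hk.2.symm.trans hk'.2
  have h2 : ∀ P ∈ Y, (((range M).filter fun k : ℕ => p (w + (q₀ + k)) w = P).card : ℤ) ≤
      C + 1 := by
    intro P _
    set S := (range M).filter fun k : ℕ => p (w + (q₀ + k)) w = P with hS
    rcases S.eq_empty_or_nonempty with h | h
    · rw [h, Finset.card_empty]
      simp only [Nat.cast_zero]
      linarith
    · obtain ⟨m₀, hm₀⟩ : ∃ m₀, m₀ = S.min' h := ⟨_, rfl⟩
      have hmin : m₀ ∈ S := by rw [hm₀]; exact Finset.min'_mem S h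
      have hsub : S ⊆ Finset.Icc m₀ (m₀ + C.toNat) := by
        intro k hk
        have hle : m₀ ≤ k := by rw [hm₀]; exact Finset.min'_le _ _ hk
        rw [hS, Finset.mem_filter, Finset.mem_range] at hk hmin
        have k1 := hZ.lo (a := w + (q₀ + m₀)) (a' := w + (q₀ + k)) hA hB
          (by omega) (by omega) (by omega)
        rw [hk.2, hmin.2] at k1
        rw [Finset.mem_Icc]
        refine ⟨hle, ?_⟩
        omega
      have := Finset.card_le_card hsub
      rw [Nat.card_Icc] at this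
      omega
  calc (((range M).filter fun k : ℕ => p (w + (q₀ + k)) w ∈ Y).card : ℤ) ≤
      ((∑ P ∈ Y, ((range M).filter fun k : ℕ => p (w + (q₀ + k)) w = P).card : ℕ) : ℤ) := by
        exact_mod_cast h1
    _ = ∑ P ∈ Y, (((range M).filter fun k : ℕ => p (w + (q₀ + k)) w = P).card : ℤ) := by
        push_cast; rfl
    _ ≤ ∑ _P ∈ Y, (C + 1) := Finset.sum_le_sum h2
    _ = (C + 1) * Y.card := by rw [Finset.sum_const, nsmul_eq_mul]; ring

open Classical in
/-- **Corners in a union of blocks.** -/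
theorem Zn.corners (hZ : Zn p g K C Q A B) (hg : Monotone g) {γ γ₀ ℓ w q₀ : ℤ} {L s Nb : ℕ}
    (hI : LInt p g K C Q A B γ₀ ℓ) (hA : A ≤ w) (hB : w ≤ B) (h1 : s ≤ q₀)
    (h2 : q₀ + (Nb * L : ℕ) + s ≤ Q) (hℓ : (L : ℤ) + 2 * s ≤ ℓ) (hγ : γ₀ + K * ℓ + C ≤ γ) :
    (((range (Nb * L)).filter fun k : ℕ => (∀ a', w + (q₀ + k) - s ≤ a' →
      a' ≤ w + (q₀ + k) + s → γ ≤ g a' - p a' w) ∧ ¬ Reg p C s (w + (q₀ + k)) w).card : ℤ) ≤
      Nb * (2 * s * (K - 1)) := by
  induction Nb with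
  | zero => simp
  | succ n ih =>
    have hle : ((n * L : ℕ) : ℤ) ≤ ((n + 1) * L : ℕ) := by
      exact_mod_cast Nat.mul_le_mul_right L (Nat.le_succ n)
    have ih' := ih (by linarith)
    have e1 : (n + 1) * L = n * L + L := by ring
    rw [e1, Finset.range_eq_Ico, ← Finset.Ico_union_Ico_eq_Ico (Nat.zero_le (n * L))
      (Nat.le_add_right _ L), Finset.filter_union]
    have hblock := hZ.corner hg (b := w + q₀ + (n * L : ℕ)) (L := L) (s := s) hI hA hB
      (by have : (0 : ℤ) ≤ (n * L : ℕ) := by positivity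
          linarith)
      (by rw [e1] at h2; push_cast at h2 ⊢; linarith) hℓ hγ
    have hcard : ((Finset.Ico (n * L) (n * L + L)).filter fun k : ℕ =>
        (∀ a', w + (q₀ + k) - s ≤ a' → a' ≤ w + (q₀ + k) + s → γ ≤ g a' - p a' w) ∧
          ¬ Reg p C s (w + (q₀ + k)) w).card ≤
        ((range L).filter fun i : ℕ => (∀ a', w + q₀ + (n * L : ℕ) + i - s ≤ a' →
          a' ≤ w + q₀ + (n * L : ℕ) + i + s → γ ≤ g a' - p a' w) ∧
          ¬ Reg p C s (w + q₀ + (n * L : ℕ) + i) w).card := by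
      refine Finset.card_le_card_of_injOn (fun k => k - n * L) ?_ ?_
      · intro k hk
        rw [Finset.mem_coe, Finset.mem_filter, Finset.mem_Ico] at hk
        obtain ⟨⟨k1, k2⟩, k3, k4⟩ := hk
        have e2 : w + q₀ + ((n * L : ℕ) : ℤ) + ((k - n * L : ℕ) : ℤ) = w + (q₀ + k) := by
          rw [Nat.cast_sub k1]; ring
        rw [Finset.mem_coe, Finset.mem_filter, Finset.mem_range]
        refine ⟨show k - n * L < L by omega, ?_, ?_⟩
        · show ∀ a', w + q₀ + ((n * L : ℕ) : ℤ) + ((k - n * L : ℕ) : ℤ) - s ≤ a' → _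
          rw [e2]
          exact k3
        · show ¬ Reg p C s (w + q₀ + ((n * L : ℕ) : ℤ) + ((k - n * L : ℕ) : ℤ)) w
          rw [e2]
          exact k4
      · intro k hk k' hk' h
        rw [Finset.mem_coe, Finset.mem_filter, Finset.mem_Ico] at hk hk'
        have : k - n * L = k' - n * L := h
        omega
    have hu := Finset.card_union_le ((Finset.Ico 0 (n * L)).filter fun k : ℕ =>
        (∀ a', w + (q₀ + k) - s ≤ a' → a' ≤ w + (q₀ + k) + s → γ ≤ g a' - p a' w) ∧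
          ¬ Reg p C s (w + (q₀ + k)) w) ((Finset.Ico (n * L) (n * L + L)).filter fun k : ℕ =>
        (∀ a', w + (q₀ + k) - s ≤ a' → a' ≤ w + (q₀ + k) + s → γ ≤ g a' - p a' w) ∧
          ¬ Reg p C s (w + (q₀ + k)) w)
    rw [← Finset.range_eq_Ico] at hu ⊢
    have h5 : ((((range (n * L)).filter fun k : ℕ =>
        (∀ a', w + (q₀ + k) - s ≤ a' → a' ≤ w + (q₀ + k) + s → γ ≤ g a' - p a' w) ∧
          ¬ Reg p C s (w + (q₀ + k)) w) ∪ ((Finset.Ico (n * L) (n * L + L)).filter fun k : ℕ =>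
        (∀ a', w + (q₀ + k) - s ≤ a' → a' ≤ w + (q₀ + k) + s → γ ≤ g a' - p a' w) ∧
          ¬ Reg p C s (w + (q₀ + k)) w)).card : ℤ) ≤ _ := le_trans (by exact_mod_cast hu)
        (le_refl ((((range (n * L)).filter fun k : ℕ =>
        (∀ a', w + (q₀ + k) - s ≤ a' → a' ≤ w + (q₀ + k) + s → γ ≤ g a' - p a' w) ∧
          ¬ Reg p C s (w + (q₀ + k)) w).card + ((Finset.Ico (n * L) (n * L + L)).filter
            fun k : ℕ => (∀ a', w + (q₀ + k) - s ≤ a' → a' ≤ w + (q₀ + k) + s →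
              γ ≤ g a' - p a' w) ∧ ¬ Reg p C s (w + (q₀ + k)) w).card : ℕ) : ℤ))
    push_cast at h5 hcard ⊢
    have h6 : (((Finset.Ico (n * L) (n * L + L)).filter fun k : ℕ =>
        (∀ a', w + (q₀ + k) - s ≤ a' → a' ≤ w + (q₀ + k) + s → γ ≤ g a' - p a' w) ∧
          ¬ Reg p C s (w + (q₀ + k)) w).card : ℤ) ≤ 2 * s * (K - 1) := by
      refine le_trans ?_ hblock
      exact_mod_cast hcard
    linarith

end Pool.THR2
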