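import Pool.Agent.H76.THR.Main

/-!
# The ball slope law, with weak hypotheses

As `Zn.ball`, but the precision is regular only where the gap is large (it may be the minimum of
a minimum of linear functions and of an arbitrary monotone function `g`), monotonicity holds up to
`C`, and the gap is a hypothesis at the good points.
-/

set_option autoImplicit false

namespace Pool.THR2

open Finset

variable {p : ℤ → ℤ → ℤ} {g : ℤ → ℤ} {K C Q A B u γ₀ ℓ : ℤ} {V : ℤ → ℤ → Prop}

/-- Precisions which are regular where the gap is at least `γ₀`. -/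
structure Zq (p : ℤ → ℤ → ℤ) (g : ℤ → ℤ) (K C Q A B γ₀ ℓ : ℤ) : Prop where
  K0 : 1 ≤ K
  C0 : 0 ≤ C
  g0 : Monotone g
  /-- monotone in the radius up to `C` -/
  ma : ∀ {a a' w}, A ≤ w → w ≤ B → w ≤ a → a ≤ a' → a' ≤ w + Q → p a w ≤ p a' w + C
  /-- Lipschitz to the right of a radius of large gap -/
  up : ∀ {a a' w}, A ≤ w → w ≤ B → w ≤ a → a ≤ a' → a' ≤ w + Q → γ₀ ≤ g a - p a w →
    p a' w ≤ p a w + K * (a' - a) + C
  /-- local integrality -/
  li : LInt p g K C Q A B γ₀ ℓ

/-- The gap is at least `γ` on `[a - s, a + s]`. -/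
def GapOn (p : ℤ → ℤ → ℤ) (g : ℤ → ℤ) (γ s a w : ℤ) : Prop :=
  ∀ α, a - s ≤ α → α ≤ a + s → γ ≤ g α - p α w

/-- The precision is nearly linear on `[a - s, a + s]`, with a slope between `1` and `K`. -/
def RegK (p : ℤ → ℤ → ℤ) (K C s a w : ℤ) : Prop :=
  ∃ j lam : ℤ, 1 ≤ j ∧ j ≤ K ∧ ∀ a', a - s ≤ a' → a' ≤ a + s → |p a' w - (j * a' + lam)| ≤ C

/-- There are good rows just below and just above `P`. -/
def NearC (V : ℤ → ℤ → Prop) (C s w P : ℤ) : Prop :=
  (∃ P', P - s + 4 * C < P' ∧ P' ≤ P ∧ V w P') ∧ ∃ P', P + C < P' ∧ P' ≤ P + s - 4 * C ∧ V w P'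

/-- **One step.** -/
theorem Zq.step (hZ : Zq p g K C Q A B γ₀ ℓ) (hV : Slope p K C Q A B u V)
    {a w s : ℤ} (hA : A ≤ w) (hB : w + u ≤ B) (hu : 0 ≤ u) (hs : 0 ≤ s) (hℓ : 2 * s ≤ ℓ)
    (h1 : w ≤ a - s) (h2 : a + s ≤ w + Q) (hreg : RegK p K C s a w)
    (hN : NearC V C s w (p a w)) (hG : GapOn p g γ₀ s (a + u) (w + u)) :
    p a w + ((K + 1) * (u - C) - K - 6 * C) ≤ p (a + u) (w + u) := by
  have hK := hZ.K0
  have hC := hZ.C0
  obtain ⟨j, lam, j1, j2, hj⟩ := hreg
  obtain ⟨⟨P₁, q1, q2, q3⟩, ⟨P₂, r1, r2, r3⟩⟩ := hN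
  have hwB : w ≤ B := by linarith
  have e9 := abs_le.1 (hj a (by linarith) (by linarith))
  have em := abs_le.1 (hj (a - s) (by linarith) (by linarith))
  have ep := abs_le.1 (hj (a + s) (by linarith) (by linarith))
  have hjs : s ≤ j * s := by nlinarith
  obtain ⟨lam', hL⟩ := hZ.li (w + u) (a + u - s) (a + u + s) (by linarith) hB
    (by linarith) (by linarith) (by linarith) (by linarith) (fun α b1 b2 => hG α b1 b2)
  obtain ⟨a₁, s1, s2, s3, s4⟩ := exists_first (p := p) (w := w) (a₀ := a) (P := P₁)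
    (by linarith) q2
  obtain ⟨a₂, t1, t2, t3, t4⟩ := exists_first (p := p) (w := w) (a₀ := a + s) (P := P₂)
    (by linarith) (by linarith)
  have s5 : a - s < a₁ := by
    by_contra h
    push Not at h
    have := hZ.ma hA hwB s1 h (by linarith)
    linarith
  have t5 : a < a₂ := by
    by_contra h
    push Not at h
    have := hZ.ma hA hwB t1 h (by linarith)
    linarith
  have s6 := hV w P₁ hA hB q3 a₁ s1 (by linarith) s3 s4
  have t6 := hV w P₂ hA hB r3 a₂ t1 (by linarith) t3 t4
  have s7 := s4 (a₁ - 1) (by linarith) (by linarith)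
  have t7 := t4 (a₂ - 1) (by linarith) (by linarith)
  have s8 := abs_le.1 (hj (a₁ - 1) (by linarith) (by linarith))
  have t8 := abs_le.1 (hj (a₂ - 1) (by linarith) (by linarith))
  obtain ⟨-, i, i1, i2, i3⟩ := hL (a + u) (by linarith) (by linarith)
  have u1 := (hL (a₁ + u) (by linarith) (by linarith)).1 i i1 i2
  have u2 := (hL (a₂ + u) (by linarith) (by linarith)).1 i i1 i2
  have v1 : 0 ≤ (i - j) * a₁ + (i * u + lam' i - lam - (K + 1) * (u - C) + K + 4 * C) := by
    linarith
  have v2 : 0 ≤ (i - j) * a₂ + (i * u + lam' i - lam - (K + 1) * (u - C) + K + 4 * C) := by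
    linarith
  have v3 : 0 ≤ (i - j) * a + (i * u + lam' i - lam - (K + 1) * (u - C) + K + 4 * C) := by
    rcases le_total j i with h | h
    · have : (i - j) * a₁ ≤ (i - j) * a := mul_le_mul_of_nonneg_left s2 (by linarith)
      linarith
    · have : (i - j) * a₂ ≤ (i - j) * a := by
        have := mul_le_mul_of_nonneg_left t5.le (show 0 ≤ j - i by linarith)
        linarith
      linarith
  linarith

open Classical in
/-- **Few corners**, one block. -/
theorem Zq.corner (hZ : Zq p g K C Q A B γ₀ ℓ) {γ w b : ℤ} {L s : ℕ}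
    (hA : A ≤ w) (hB : w ≤ B) (h1 : w ≤ b - s)
    (h2 : b + L + s ≤ w + Q) (hℓ : (L : ℤ) + 2 * s ≤ ℓ) (hγ : γ₀ + K * ℓ + C ≤ γ) :
    (((range L).filter fun i : ℕ => GapOn p g γ s (b + i) w ∧
      ¬ RegK p K C s (b + i) w).card : ℤ) ≤ 2 * s * (K - 1) := by
  have hK := hZ.K0
  have hC := hZ.C0
  have hg := hZ.g0
  set S := (range L).filter fun i : ℕ => GapOn p g γ s (b + i) w ∧
      ¬ RegK p K C s (b + i) w with hS
  rcases S.eq_empty_or_nonempty with hem | hne
  · rw [hem, Finset.card_empty]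
    have : 0 ≤ 2 * (s : ℤ) * (K - 1) := mul_nonneg (by positivity) (by linarith)
    simpa using this
  · set i₀ := S.min' hne with hi₀
    have hi₀S : i₀ ∈ S := Finset.min'_mem _ _
    have hmem := hi₀S
    rw [hS, Finset.mem_filter, Finset.mem_range] at hmem
    obtain ⟨m1, m2, m3⟩ := hmem
    have hℓ0 : 0 ≤ K * ℓ := mul_nonneg (by linarith) (by linarith)
    have hgap : ∀ a, b + i₀ - s ≤ a → a ≤ b + L + s → γ₀ ≤ g a - p a w := by
      intro a ha ha'
      have k1 := m2 (b + i₀ - s) le_rfl (by omega)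
      have k2 := hg ha
      have k3 := hZ.up (a := b + i₀ - s) (a' := a) hA hB (by omega) ha (by linarith)
        (by linarith)
      have k4 : K * (a - (b + i₀ - s)) ≤ K * ℓ :=
        mul_le_mul_of_nonneg_left (by omega) (by linarith)
      linarith
    obtain ⟨lam, hlam⟩ := hZ.li w (b + i₀ - s) (b + L + s) hA hB (by omega) (by omega) h2
      (by omega) hgap
    have hsub : S.card ≤ ((range (L - i₀)).filter fun i : ℕ =>
        (fun m : ℕ => idx K lam (b + i₀ - s + m)) i ≠
          (fun m : ℕ => idx K lam (b + i₀ - s + m)) (i + 2 * s)).card := by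
      refine Finset.card_le_card_of_injOn (fun i => i - i₀) ?_ ?_
      · intro i hi
        have hi' : i ∈ S := hi
        have hle : i₀ ≤ i := Finset.min'_le _ _ hi'
        rw [hS, Finset.mem_filter, Finset.mem_range] at hi'
        obtain ⟨n1, -, n3⟩ := hi'
        rw [Finset.mem_coe, Finset.mem_filter, Finset.mem_range]
        refine ⟨show i - i₀ < L - i₀ by omega, fun heq => n3 ?_⟩
        have c1 : b + i₀ - s + ((i - i₀ : ℕ) : ℤ) = b + i - s := by
          rw [Nat.cast_sub hle]; ring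
        have c2 : b + i₀ - s + (((i - i₀) + 2 * s : ℕ) : ℤ) = b + i + s := by
          push_cast
          rw [Nat.cast_sub hle]; ring
        have heq' : idx K lam (b + i - s) = idx K lam (b + i + s) := by
          have := heq
          simp only at this
          rwa [c1, c2] at this
        obtain ⟨o1, o2, -, -⟩ := idx_spec hK lam (b + i - s)
        refine ⟨idx K lam (b + i - s), lam (idx K lam (b + i - s)), o1, o2,
          fun a' ha ha' => ?_⟩
        have d1 := idx_antitone hK lam ha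
        have d2 := idx_antitone hK lam ha'
        rw [← heq'] at d2
        have d3 : idx K lam a' = idx K lam (b + i - s) := le_antisymm d1 d2
        obtain ⟨f1, f2, f3, -⟩ := idx_spec hK lam a'
        rw [d3] at f1 f2 f3
        obtain ⟨g1, i', g2, g3, g4⟩ := hlam a' (by omega) (by omega)
        have g5 := g1 _ f1 f2
        have g6 := f3 i' g2 g3
        rw [abs_le]
        constructor <;> linarith
      · intro i hi i' hi' h
        have hle : i₀ ≤ i := Finset.min'_le _ _ hi
        have hle' : i₀ ≤ i' := Finset.min'_le _ _ hi'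
        have h' : i - i₀ = i' - i₀ := h
        omega
    have hcard := card_ne_le (F := fun m : ℕ => idx K lam (b + i₀ - s + m)) (K := K)
      (N := L - i₀) (s := 2 * s) (fun i j hij _ => idx_antitone hK lam (by omega))
      (fun i => (idx_spec hK lam _).1) (fun i => (idx_spec hK lam _).2.1)
    have : (S.card : ℤ) ≤ _ := le_trans (by exact_mod_cast hsub) hcard
    push_cast at this
    exact this

open Classical in
/-- **Few corners**, a union of blocks. -/
theorem Zq.corners (hZ : Zq p g K C Q A B γ₀ ℓ) {γ w q₀ : ℤ} {L s Nb : ℕ}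
    (hA : A ≤ w) (hB : w ≤ B) (h1 : s ≤ q₀)
    (h2 : q₀ + (Nb * L : ℕ) + s ≤ Q) (hℓ : (L : ℤ) + 2 * s ≤ ℓ) (hγ : γ₀ + K * ℓ + C ≤ γ) :
    (((range (Nb * L)).filter fun k : ℕ => GapOn p g γ s (w + (q₀ + k)) w ∧
      ¬ RegK p K C s (w + (q₀ + k)) w).card : ℤ) ≤ Nb * (2 * s * (K - 1)) := by
  set Bad : ℕ → Prop := fun k => GapOn p g γ s (w + (q₀ + k)) w ∧
      ¬ RegK p K C s (w + (q₀ + k)) w with hBad
  induction Nb with
  | zero => simp
  | succ n ih =>
    have hle : ((n * L : ℕ) : ℤ) ≤ ((n + 1) * L : ℕ) := by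
      exact_mod_cast Nat.mul_le_mul_right L (Nat.le_succ n)
    have ih' := ih (by linarith)
    have e1 : (n + 1) * L = n * L + L := by ring
    have hblock := hZ.corner (b := w + q₀ + (n * L : ℕ)) (L := L) (s := s) hA hB
      (by have : (0 : ℤ) ≤ (n * L : ℕ) := by positivity
          linarith)
      (by rw [e1] at h2; push_cast at h2 ⊢; linarith) hℓ hγ
    have hcard : ((Finset.Ico (n * L) (n * L + L)).filter Bad).card ≤
        ((range L).filter fun i : ℕ => GapOn p g γ s (w + q₀ + (n * L : ℕ) + i) w ∧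
          ¬ RegK p K C s (w + q₀ + (n * L : ℕ) + i) w).card := by
      refine Finset.card_le_card_of_injOn (fun k => k - n * L) ?_ ?_
      · intro k hk
        rw [Finset.mem_coe, Finset.mem_filter, Finset.mem_Ico] at hk
        obtain ⟨⟨k1, k2⟩, k3⟩ := hk
        have e2 : w + q₀ + ((n * L : ℕ) : ℤ) + ((k - n * L : ℕ) : ℤ) = w + (q₀ + k) := by
          rw [Nat.cast_sub k1]; ring
        rw [Finset.mem_coe, Finset.mem_filter, Finset.mem_range]
        refine ⟨show k - n * L < L by omega, ?_⟩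
        show GapOn p g γ s (w + q₀ + ((n * L : ℕ) : ℤ) + ((k - n * L : ℕ) : ℤ)) w ∧
          ¬ RegK p K C s (w + q₀ + ((n * L : ℕ) : ℤ) + ((k - n * L : ℕ) : ℤ)) w
        rw [e2]
        exact k3
      · intro k hk k' hk' h
        rw [Finset.mem_coe, Finset.mem_filter, Finset.mem_Ico] at hk hk'
        have : k - n * L = k' - n * L := h
        omega
    have hsplit : (range ((n + 1) * L)).filter Bad =
        (range (n * L)).filter Bad ∪ (Finset.Ico (n * L) (n * L + L)).filter Bad := by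
      rw [e1, Finset.range_eq_Ico, Finset.range_eq_Ico,
        ← Finset.Ico_union_Ico_eq_Ico (Nat.zero_le (n * L)) (Nat.le_add_right _ L),
        Finset.filter_union]
    rw [hsplit]
    have hu := Finset.card_union_le ((range (n * L)).filter Bad)
      ((Finset.Ico (n * L) (n * L + L)).filter Bad)
    have h5 : ((((range (n * L)).filter Bad) ∪
        ((Finset.Ico (n * L) (n * L + L)).filter Bad)).card : ℤ) ≤
        ((range (n * L)).filter Bad).card + ((Finset.Ico (n * L) (n * L + L)).filter Bad).card := by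
      exact_mod_cast hu
    have h6 : (((Finset.Ico (n * L) (n * L + L)).filter Bad).card : ℤ) ≤ 2 * s * (K - 1) := by
      refine le_trans ?_ hblock
      exact_mod_cast hcard
    push_cast
    linarith

/-- Few visits to a block of rows. -/
theorem card_block {h : ℕ → ℤ} {d E b s' : ℤ} (S : Finset ℕ) (hd : 0 ≤ d)
    (hh : ∀ i ∈ S, ∀ j ∈ S, i ≤ j → h i + d * (j - i) - E ≤ h j)
    (hS : ∀ i ∈ S, b ≤ h i ∧ h i < b + s') (hE : 0 ≤ s' + E) :
    d * ((S.card : ℤ) - 1) ≤ s' + E := by
  classical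
  rcases S.eq_empty_or_nonempty with h0 | hne
  · rw [h0, Finset.card_empty]
    push_cast
    linarith
  · have hmin := Finset.min'_mem S hne
    have hmax := Finset.max'_mem S hne
    set i := S.min' hne
    set j := S.max' hne
    have hij : i ≤ j := Finset.min'_le _ _ hmax
    have hsub : S ⊆ Finset.Icc i j := fun y hy =>
      Finset.mem_Icc.2 ⟨Finset.min'_le _ _ hy, Finset.le_max' _ _ hy⟩
    have hcard := Finset.card_le_card hsub
    rw [Nat.card_Icc] at hcard
    have h1 := hh i hmin j hmax hij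
    have h2 := hS i hmin
    have h3 := hS j hmax
    have h4 : (S.card : ℤ) - 1 ≤ j - i := by omega
    have h5 : d * ((S.card : ℤ) - 1) ≤ d * (j - i) := mul_le_mul_of_nonneg_left h4 hd
    linarith

/-- Growth of a sequence with few bad steps. -/
theorem growth {h : ℕ → ℤ} {D C : ℤ} (hDC : 0 ≤ D + C) (Bad : Finset ℕ) (n : ℕ)
    (hgood : ∀ i < n, i ∉ Bad → h i + D ≤ h (i + 1)) (hbad : ∀ i < n, h i ≤ h (i + 1) + C) :
    h 0 + D * n - (D + C) * Bad.card ≤ h n := by
  classical
  have key : ∀ m : ℕ, m ≤ n → h 0 + D * m - (D + C) * (Bad.filter fun i => i < m).card ≤ h m := by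
    intro m
    induction m with
    | zero => intro _; simp
    | succ m ih =>
      intro hm
      have ih' := ih (by omega)
      by_cases hb : m ∈ Bad
      · have hcard : (Bad.filter fun i => i < m + 1).card =
            (Bad.filter fun i => i < m).card + 1 := by
          have : (Bad.filter fun i => i < m + 1) = insert m (Bad.filter fun i => i < m) := by
            ext i
            simp only [Finset.mem_filter, Finset.mem_insert]
            constructor
            · rintro ⟨h1, h2⟩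
              rcases Nat.lt_succ_iff_lt_or_eq.1 h2 with h3 | h3
              · exact Or.inr ⟨h1, h3⟩
              · exact Or.inl h3
            · rintro (h | ⟨h1, h2⟩)
              · exact ⟨h ▸ hb, by omega⟩
              · exact ⟨h1, by omega⟩
          rw [this, Finset.card_insert_of_notMem (by simp)]
        rw [hcard]
        push_cast
        have := hbad m (by omega)
        linarith
      · have hcard : (Bad.filter fun i => i < m + 1) = (Bad.filter fun i => i < m) := by
          ext i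
          simp only [Finset.mem_filter]
          constructor
          · rintro ⟨h1, h2⟩
            rcases Nat.lt_succ_iff_lt_or_eq.1 h2 with h3 | h3
            · exact ⟨h1, h3⟩
            · exact absurd (h3 ▸ h1) hb
          · rintro ⟨h1, h2⟩
            exact ⟨h1, by omega⟩
        rw [hcard]
        push_cast
        have := hgood m (by omega) hb
        linarith
  have h1 := key n le_rfl
  have h2 : ((Bad.filter fun i => i < n).card : ℤ) ≤ Bad.card := by
    exact_mod_cast Finset.card_filter_le _ _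
  have h3 : (D + C) * ((Bad.filter fun i => i < n).card : ℤ) ≤ (D + C) * Bad.card :=
    mul_le_mul_of_nonneg_left h2 hDC
  linarith

open Classical in
/-- **Ball slope law**, weak form. `Dn w P`: the row `P` is dense at the window `w`; `Y i`: the
exceptional radii at the `i`-th window. -/
theorem Zq.ball (hZ : Zq p g K C Q A B γ₀ ℓ) (hV : Slope p K C Q A B u V) (hu : 0 ≤ u)
    {wa q₀ γ H E β₂ : ℤ} {n L s Nb : ℕ}
    (hdm : ∀ a w, A ≤ w → w + u ≤ B → w ≤ a → a ≤ w + Q → p a w ≤ p (a + u) (w + u) + C)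
    (hA : A ≤ wa) (hB : wa + (n + 1 : ℕ) * u ≤ B) (hs1 : s ≤ q₀)
    (hQ : q₀ + (Nb * L : ℕ) + s ≤ Q) (hM : 0 < Nb * L) (hℓ : (L : ℤ) + 2 * s ≤ ℓ)
    (hγ : γ₀ + K * ℓ + C ≤ γ) (hD0 : 0 ≤ (K + 1) * (u - C) - K - 5 * C)
    {Dn : ℤ → ℤ → Prop} (hN : ∀ w P, Dn w P → NearC V C s w P) {Y : ℕ → Finset ℕ}
    (hG : ∀ i ≤ n, ∀ k < Nb * L, Dn (wa + i * u) (p (wa + i * u + (q₀ + k)) (wa + i * u)) →
      k ∉ Y i → GapOn p g γ s (wa + i * u + (q₀ + k)) (wa + i * u))
    (hvis : ∀ k < Nb * L, (((range (n + 1)).filter fun i : ℕ =>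
      ¬ Dn (wa + i * u) (p (wa + i * u + (q₀ + k)) (wa + i * u))).card : ℤ) ≤ β₂)
    (hlow : ∀ k < Nb * L, g wa ≤ p (wa + (q₀ + k)) wa + E)
    (hupp : ∀ k < Nb * L, p (wa + n * u + (q₀ + k)) (wa + n * u) ≤ g (wa + n * u) + H) :
    ∃ β₁ : ℤ, 0 ≤ β₁ ∧ (Nb * L : ℕ) * β₁ ≤ 2 * ∑ i ∈ range (n + 1), ((Y i).card : ℤ) +
        n * (Nb * (2 * s * (K - 1))) ∧
      g wa + ((K + 1) * (u - C) - K - 6 * C) * n -
        ((K + 1) * (u - C) - K - 5 * C) * (β₁ + 2 * β₂) ≤ g (wa + n * u) + H + E := by
  classical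
  have hC := hZ.C0
  have hK := hZ.K0
  have hs0 : (0 : ℤ) ≤ s := by positivity
  have hwi : ∀ i : ℕ, i ≤ n → wa ≤ wa + i * u ∧ wa + i * u + u ≤ B := by
    intro i hi
    push_cast at hB
    have h1 : 0 ≤ (i : ℤ) * u := by positivity
    have h2 : (i : ℤ) * u ≤ n * u := mul_le_mul_of_nonneg_right (by exact_mod_cast hi) hu
    constructor <;> linarith
  set h : ℕ → ℕ → ℤ := fun k i => p (wa + i * u + (q₀ + k)) (wa + i * u) with hh
  set S1 : ℕ → Finset ℕ := fun k => (range (n + 1)).filter fun i => k ∈ Y i with hS1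
  set S2 : ℕ → Finset ℕ := fun k => (range (n + 1)).filter fun i =>
    ¬ Dn (wa + i * u) (h k i) with hS2
  set Cor : ℕ → ℕ → Prop := fun k i => GapOn p g γ s (wa + i * u + (q₀ + k)) (wa + i * u) ∧
      ¬ RegK p K C s (wa + i * u + (q₀ + k)) (wa + i * u) with hCor
  set S3 : ℕ → Finset ℕ := fun k => (range n).filter fun i => Cor k i with hS3
  set Bad : ℕ → Finset ℕ := fun k =>
    (S1 k ∪ S2 k) ∪ (((S1 k ∪ S2 k).image fun i => i - 1) ∪ S3 k) with hBad
  have hcount : ∀ k, ((Bad k).card : ℤ) ≤ 2 * (S1 k).card + 2 * (S2 k).card + (S3 k).card := by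
    intro k
    have c2 := Finset.card_union_le (S1 k ∪ S2 k)
      (((S1 k ∪ S2 k).image fun i => i - 1) ∪ S3 k)
    have c3 := Finset.card_union_le ((S1 k ∪ S2 k).image fun i => i - 1) (S3 k)
    have c4 := Finset.card_union_le (S1 k) (S2 k)
    have c5 : ((S1 k ∪ S2 k).image fun i => i - 1).card ≤ (S1 k ∪ S2 k).card :=
      Finset.card_image_le
    have c6 : (Bad k).card ≤ _ := c2
    omega
  have hγγ : γ₀ ≤ γ := by
    have : 0 ≤ K * ℓ := mul_nonneg (by linarith) (by linarith [show (0 : ℤ) ≤ L by positivity])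
    linarith
  have hgood : ∀ k < Nb * L, ∀ i < n, i ∉ Bad k →
      h k i + ((K + 1) * (u - C) - K - 6 * C) ≤ h k (i + 1) := by
    intro k hk i hi hb
    have hk' : (k : ℤ) < (Nb * L : ℕ) := by exact_mod_cast hk
    obtain ⟨w1, w2⟩ := hwi i (by omega)
    obtain ⟨w3, w4⟩ := hwi (i + 1) (by omega)
    simp only [hBad, Finset.mem_union, Finset.mem_image, not_or, not_exists, not_and] at hb
    obtain ⟨⟨b1, b2⟩, b3, b4⟩ := hb
    have d1 : Dn (wa + i * u) (h k i) := by
      by_contra hcon
      exact b2 (Finset.mem_filter.2 ⟨Finset.mem_range.2 (by omega), hcon⟩)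
    have d2 : k ∉ Y i := fun hcon =>
      b1 (Finset.mem_filter.2 ⟨Finset.mem_range.2 (by omega), hcon⟩)
    have d3 : Dn (wa + ((i + 1 : ℕ) : ℤ) * u) (h k (i + 1)) := by
      by_contra hcon
      exact b3 (i + 1) (Or.inr (Finset.mem_filter.2 ⟨Finset.mem_range.2 (by omega), hcon⟩)) rfl
    have d4 : k ∉ Y (i + 1) := fun hcon =>
      b3 (i + 1) (Or.inl (Finset.mem_filter.2 ⟨Finset.mem_range.2 (by omega), hcon⟩)) rfl
    have g1 := hG i (by omega) k hk d1 d2
    have g2 := hG (i + 1) (by omega) k hk d3 d4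
    have r1 : RegK p K C s (wa + i * u + (q₀ + k)) (wa + i * u) := by
      by_contra hcon
      exact b4 (Finset.mem_filter.2 ⟨Finset.mem_range.2 hi, g1, hcon⟩)
    have e1 : wa + ((i + 1 : ℕ) : ℤ) * u + (q₀ + k) = wa + i * u + (q₀ + k) + u := by
      push_cast; ring
    have e2 : wa + ((i + 1 : ℕ) : ℤ) * u = wa + i * u + u := by push_cast; ring
    have g3 : GapOn p g γ₀ s (wa + i * u + (q₀ + k) + u) (wa + i * u + u) := by
      rw [← e1, ← e2]
      exact fun α h1 h2 => hγγ.trans (g2 α h1 h2)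
    have := hZ.step hV (a := wa + i * u + (q₀ + k)) (w := wa + i * u) (s := s) (by linarith) w2
      hu hs0 (by linarith [show (0 : ℤ) ≤ L by positivity]) (by linarith [show (0 : ℤ) ≤ k by positivity])
      (by linarith) r1 (hN _ _ d1) g3
    simp only [hh]
    rw [e1, e2]
    exact this
  have hbadstep : ∀ k < Nb * L, ∀ i < n, h k i ≤ h k (i + 1) + C := by
    intro k hk i hi
    have hk' : (k : ℤ) < (Nb * L : ℕ) := by exact_mod_cast hk
    obtain ⟨w1, w2⟩ := hwi i (by omega)
    have e1 : wa + ((i + 1 : ℕ) : ℤ) * u + (q₀ + k) = wa + i * u + (q₀ + k) + u := by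
      push_cast; ring
    have e2 : wa + ((i + 1 : ℕ) : ℤ) * u = wa + i * u + u := by push_cast; ring
    simp only [hh]
    rw [e1, e2]
    exact hdm _ _ (by linarith) w2 (by linarith [show (0 : ℤ) ≤ k by positivity]) (by linarith)
  -- sums over `k`
  have hsum1 : ∑ k ∈ range (Nb * L), ((S1 k).card : ℤ) ≤
      ∑ i ∈ range (n + 1), ((Y i).card : ℤ) := by
    have e1 : ∑ k ∈ range (Nb * L), ((S1 k).card : ℤ) = ∑ i ∈ range (n + 1),
        (((range (Nb * L)).filter fun k => k ∈ Y i).card : ℤ) := by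
      simp only [hS1, Finset.card_filter]
      push_cast
      rw [Finset.sum_comm]
    rw [e1]
    refine Finset.sum_le_sum fun i _ => ?_
    have : (range (Nb * L)).filter (fun k => k ∈ Y i) ⊆ Y i := fun k hk =>
      (Finset.mem_filter.1 hk).2
    exact_mod_cast Finset.card_le_card this
  have hsum3 : ∑ k ∈ range (Nb * L), ((S3 k).card : ℤ) ≤ n * (Nb * (2 * s * (K - 1))) := by
    have e1 : ∑ k ∈ range (Nb * L), ((S3 k).card : ℤ) = ∑ i ∈ range n,
        (((range (Nb * L)).filter fun k => Cor k i).card : ℤ) := by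
      simp only [hS3, Finset.card_filter]
      push_cast
      rw [Finset.sum_comm]
    rw [e1]
    calc _ ≤ ∑ _i ∈ range n, (Nb * (2 * s * (K - 1)) : ℤ) := by
          refine Finset.sum_le_sum fun i hi => ?_
          have hi' := Finset.mem_range.1 hi
          obtain ⟨w1, w2⟩ := hwi i (by omega)
          exact hZ.corners (w := wa + i * u) (q₀ := q₀) (by linarith) (by linarith)
            (by linarith) (by linarith) hℓ hγ
      _ = n * (Nb * (2 * s * (K - 1))) := by
          rw [Finset.sum_const, Finset.card_range, nsmul_eq_mul]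
  obtain ⟨k, hk, hkle⟩ : ∃ k ∈ range (Nb * L), (Nb * L : ℕ) * (2 * ((S1 k).card : ℤ) +
      (S3 k).card) ≤ ∑ k ∈ range (Nb * L), (2 * ((S1 k).card : ℤ) + (S3 k).card) := by
    by_contra hcon
    push Not at hcon
    have hlt : ∑ k ∈ range (Nb * L), ∑ k ∈ range (Nb * L), (2 * ((S1 k).card : ℤ) +
        (S3 k).card) < ∑ k ∈ range (Nb * L), (Nb * L : ℕ) * (2 * ((S1 k).card : ℤ) +
        (S3 k).card) :=
      Finset.sum_lt_sum_of_nonempty (Finset.nonempty_range_iff.2 hM.ne') fun k hk => hcon k hk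
    rw [Finset.sum_const, Finset.card_range, nsmul_eq_mul, ← Finset.mul_sum] at hlt
    exact lt_irrefl _ hlt
  have hk' := Finset.mem_range.1 hk
  refine ⟨2 * (S1 k).card + (S3 k).card, by positivity, ?_, ?_⟩
  · refine hkle.trans ?_
    rw [Finset.sum_add_distrib, ← Finset.mul_sum]
    linarith
  · have e0 : (K + 1) * (u - C) - K - 5 * C = ((K + 1) * (u - C) - K - 6 * C) + C := by ring
    have e1 := growth (h := h k) (D := (K + 1) * (u - C) - K - 6 * C) (C := C)
      (by rw [← e0]; exact hD0) (Bad k) n (hgood k hk') (hbadstep k hk')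
    rw [← e0] at e1
    have e2 := hlow k hk'
    have e3 := hupp k hk'
    have e4 := hcount k
    have e5 := hvis k hk'
    have e6 : h k 0 = p (wa + (q₀ + k)) wa := by simp [hh]
    have e7 : ((K + 1) * (u - C) - K - 5 * C) * ((Bad k).card : ℤ) ≤
        ((K + 1) * (u - C) - K - 5 * C) * (2 * (S1 k).card + (S3 k).card + 2 * β₂) := by
      refine mul_le_mul_of_nonneg_left ?_ hD0
      have : ((S2 k).card : ℤ) ≤ β₂ := e5
      linarith
    have e8 : h k n ≤ g (wa + n * u) + H := e3
    rw [e6] at e1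
    linarith

/-- **Few radii without good rows.** If the rows `U` are dense near the rows of many radii and the
exceptional rows `X` are few, then most of these radii have a good row near them. -/
theorem fibre_near {φ : ℕ → ℤ} {M : ℕ} {c : ℤ} (hc : 0 ≤ c)
    (hφ : ∀ k k', k ≤ k' → k' < M → φ k + ((k' : ℤ) - k) - c ≤ φ k') (X : Finset ℤ)
    {lo hi e : ℤ} (hlh : lo ≤ hi) (S : Finset ℕ) (hS : ∀ k ∈ S, k < M)
    (hX : ∀ k ∈ S, e ≤ ((X.filter fun P => φ k + lo < P ∧ P ≤ φ k + hi).card : ℤ)) :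
    e * S.card ≤ (hi - lo + c) * X.card := by
  classical
  have h1 : e * (S.card : ℤ) ≤ ∑ k ∈ S,
      ((X.filter fun P => φ k + lo < P ∧ P ≤ φ k + hi).card : ℤ) := by
    calc e * (S.card : ℤ) = ∑ _k ∈ S, e := by rw [Finset.sum_const, nsmul_eq_mul]; ring
      _ ≤ _ := Finset.sum_le_sum hX
  have h2 : ∑ k ∈ S, ((X.filter fun P => φ k + lo < P ∧ P ≤ φ k + hi).card : ℤ) =
      ∑ P ∈ X, ((S.filter fun k => φ k + lo < P ∧ P ≤ φ k + hi).card : ℤ) := by
    simp only [Finset.card_filter]
    push_cast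
    rw [Finset.sum_comm]
  have h3 : ∀ P ∈ X, ((S.filter fun k => φ k + lo < P ∧ P ≤ φ k + hi).card : ℤ) ≤
      hi - lo + c := by
    intro P _
    set T := S.filter fun k => φ k + lo < P ∧ P ≤ φ k + hi with hT
    rcases T.eq_empty_or_nonempty with h0 | hne
    · rw [h0, Finset.card_empty]
      push_cast
      linarith
    · have hmin := Finset.min'_mem T hne
      have hmax := Finset.max'_mem T hne
      set i := T.min' hne
      set j := T.max' hne
      have hij : i ≤ j := Finset.min'_le _ _ hmax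
      have hsub : T ⊆ Finset.Icc i j := fun y hy =>
        Finset.mem_Icc.2 ⟨Finset.min'_le _ _ hy, Finset.le_max' _ _ hy⟩
      have hcard := Finset.card_le_card hsub
      rw [Nat.card_Icc] at hcard
      rw [hT, Finset.mem_filter] at hmin hmax
      have h4 := hφ i j hij (hS j hmax.1)
      omega
  calc e * (S.card : ℤ) ≤ _ := h1
    _ = _ := h2
    _ ≤ ∑ _P ∈ X, (hi - lo + c) := Finset.sum_le_sum h3
    _ = (hi - lo + c) * X.card := by rw [Finset.sum_const, nsmul_eq_mul]; ring

end Pool.THR2
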