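import Pool.Agent.H76.THR.THR2

/-!
# Corners of the precision as a function of the radius
-/

set_option autoImplicit false

namespace Pool.THR2

open Finset

variable {p : ℤ → ℤ → ℤ} {g : ℤ → ℤ} {K C Q A B u : ℤ} {V : ℤ → ℤ → Prop}

/-- The largest minimiser. -/
theorem exists_idx {K : ℤ} (hK : 1 ≤ K) (lam : ℤ → ℤ) (a : ℤ) :
    ∃ j, 1 ≤ j ∧ j ≤ K ∧ (∀ i, 1 ≤ i → i ≤ K → j * a + lam j ≤ i * a + lam i) ∧
      ∀ i, 1 ≤ i → i ≤ K → i * a + lam i ≤ j * a + lam j → i ≤ j := by
  classical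
  have hne : (Finset.Icc 1 K).Nonempty := ⟨1, Finset.mem_Icc.2 ⟨le_rfl, hK⟩⟩
  obtain ⟨j₀, hj₀, hmin⟩ := Finset.exists_min_image (Finset.Icc 1 K) (fun j => j * a + lam j) hne
  have hne' : ((Finset.Icc 1 K).filter fun j => j * a + lam j ≤ j₀ * a + lam j₀).Nonempty :=
    ⟨j₀, Finset.mem_filter.2 ⟨hj₀, le_rfl⟩⟩
  obtain ⟨j, hj, hmax⟩ := Finset.exists_max_image _ id hne'
  rw [Finset.mem_filter, Finset.mem_Icc] at hj
  refine ⟨j, hj.1.1, hj.1.2, fun i h1 h2 => ?_, fun i h1 h2 h3 => ?_⟩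
  · exact hj.2.trans (hmin i (Finset.mem_Icc.2 ⟨h1, h2⟩))
  · exact hmax i (Finset.mem_filter.2 ⟨Finset.mem_Icc.2 ⟨h1, h2⟩, h3.trans hj.2⟩)

/-- The index of the minimum. -/
noncomputable def idx (K : ℤ) (lam : ℤ → ℤ) (a : ℤ) : ℤ :=
  if h : 1 ≤ K then (exists_idx h lam a).choose else 1

theorem idx_spec {K : ℤ} (hK : 1 ≤ K) (lam : ℤ → ℤ) (a : ℤ) :
    1 ≤ idx K lam a ∧ idx K lam a ≤ K ∧
      (∀ i, 1 ≤ i → i ≤ K → idx K lam a * a + lam (idx K lam a) ≤ i * a + lam i) ∧
      ∀ i, 1 ≤ i → i ≤ K → i * a + lam i ≤ idx K lam a * a + lam (idx K lam a) →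
        i ≤ idx K lam a := by
  unfold idx
  rw [dif_pos hK]
  exact (exists_idx hK lam a).choose_spec

theorem idx_antitone {K : ℤ} (hK : 1 ≤ K) (lam : ℤ → ℤ) {a a' : ℤ} (h : a ≤ a') :
    idx K lam a' ≤ idx K lam a := by
  obtain ⟨h1, h2, h3, h4⟩ := idx_spec hK lam a
  obtain ⟨k1, k2, k3, k4⟩ := idx_spec hK lam a'
  set j := idx K lam a
  set j' := idx K lam a'
  by_contra hlt
  push Not at hlt
  have e1 : j * a + lam j < j' * a + lam j' := by
    by_contra hc
    push Not at hc
    have := h4 j' k1 k2 hc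
    omega
  have e2 := k3 j h1 h2
  have e3 : (j' - j) * a ≤ (j' - j) * a' := mul_le_mul_of_nonneg_left h (by omega)
  linarith

/-- Telescoping. -/
theorem card_ne_le {F : ℕ → ℤ} {K : ℤ} {N s : ℕ}
    (hF : ∀ i j, i ≤ j → j < N + s → F j ≤ F i) (h1 : ∀ i, 1 ≤ F i) (h2 : ∀ i, F i ≤ K) :
    (((range N).filter fun i => F i ≠ F (i + s)).card : ℤ) ≤ s * (K - 1) := by
  classical
  have e1 : (((range N).filter fun i => F i ≠ F (i + s)).card : ℤ) ≤
      ∑ i ∈ range N, (F i - F (i + s)) := by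
    rw [Finset.card_filter]
    push_cast
    refine Finset.sum_le_sum fun i hi => ?_
    have hi' := Finset.mem_range.1 hi
    have := hF i (i + s) (by omega) (by omega)
    split_ifs with h
    · omega
    · omega
  have e2 : ∑ i ∈ range (N + s), F i = ∑ i ∈ range N, F i + ∑ i ∈ range s, F (N + i) :=
    Finset.sum_range_add _ _ _
  have e3 : ∑ i ∈ range (N + s), F i = ∑ i ∈ range s, F i + ∑ i ∈ range N, F (s + i) := by
    rw [add_comm N s]
    exact Finset.sum_range_add _ _ _
  have e4 : ∑ i ∈ range N, F (s + i) = ∑ i ∈ range N, F (i + s) :=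
    Finset.sum_congr rfl fun i _ => by rw [add_comm]
  have e5 : ∑ i ∈ range s, F i ≤ s * K := by
    calc _ ≤ ∑ _i ∈ range s, K := Finset.sum_le_sum fun i _ => h2 i
      _ = s * K := by rw [Finset.sum_const, Finset.card_range, nsmul_eq_mul]
  have e6 : (s : ℤ) ≤ ∑ i ∈ range s, F (N + i) := by
    calc (s : ℤ) = ∑ _i ∈ range s, (1 : ℤ) := by
          rw [Finset.sum_const, Finset.card_range, nsmul_eq_mul, mul_one]
      _ ≤ _ := Finset.sum_le_sum fun i _ => h1 _
  rw [Finset.sum_sub_distrib] at e1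
  linarith

open Classical in
/-- **Few corners.** In an interval of radii of length `L` there are at most `2 s (K - 1)` radii at
which the gap is large but the precision is not nearly linear. -/
theorem Zn.corner (hZ : Zn p g K C Q A B) (hg : Monotone g) {γ γ₀ ℓ w b : ℤ} {L s : ℕ}
    (hI : LInt p g K C Q A B γ₀ ℓ) (hA : A ≤ w) (hB : w ≤ B) (h1 : w ≤ b - s)
    (h2 : b + L + s ≤ w + Q) (hℓ : (L : ℤ) + 2 * s ≤ ℓ) (hγ : γ₀ + K * ℓ + C ≤ γ) :
    (((range L).filter fun i : ℕ => (∀ a', b + i - s ≤ a' → a' ≤ b + i + s →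
      γ ≤ g a' - p a' w) ∧ ¬ Reg p C s (b + i) w).card : ℤ) ≤ 2 * s * (K - 1) := by
  have hK := hZ.K0
  have hC := hZ.C0
  set S := (range L).filter fun i : ℕ => (∀ a', b + i - s ≤ a' → a' ≤ b + i + s →
      γ ≤ g a' - p a' w) ∧ ¬ Reg p C s (b + i) w with hS
  rcases S.eq_empty_or_nonempty with hem | hne
  · rw [hem, Finset.card_empty]
    have : 0 ≤ 2 * (s : ℤ) * (K - 1) := mul_nonneg (by positivity) (by linarith)
    simpa using this
  · set i₀ := S.min' hne with hi₀
    have hi₀S : i₀ ∈ S := Finset.min'_mem _ _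
    have hmem := hi₀S
    rw [hS, Finset.mem_filter, Finset.mem_range] at hmem
    obtain ⟨m1, m2, m3⟩ := hmem
    have hgap : ∀ a, b + i₀ - s ≤ a → a ≤ b + L + s → γ₀ ≤ g a - p a w := by
      intro a ha ha'
      have k1 := m2 (b + i₀ - s) le_rfl (by omega)
      have k2 := hg ha
      have k3 := hZ.up (a := b + i₀ - s) (a' := a) hA hB (by omega) ha (by linarith)
      have k4 : K * (a - (b + i₀ - s)) ≤ K * ℓ :=
        mul_le_mul_of_nonneg_left (by omega) (by linarith)
      linarith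
    obtain ⟨lam, hlam⟩ := hI w (b + i₀ - s) (b + L + s) hA hB (by omega) (by omega) h2
      (by omega) hgap
    have hsub : S.card ≤ ((range (L - i₀)).filter fun i : ℕ =>
        (fun m : ℕ => idx K lam (b + i₀ - s + m)) i ≠
          (fun m : ℕ => idx K lam (b + i₀ - s + m)) (i + 2 * s)).card := by
      refine Finset.card_le_card_of_injOn (fun i => i - i₀) ?_ ?_
      · intro i hi
        have hi' : i ∈ S := hi
        have hle : i₀ ≤ i := Finset.min'_le _ _ hi'
        rw [hS, Finset.mem_filter, Finset.mem_range] at hi'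
        obtain ⟨n1, -, n3⟩ := hi'
        rw [Finset.mem_coe, Finset.mem_filter, Finset.mem_range]
        refine ⟨show i - i₀ < L - i₀ by omega, fun heq => n3 ?_⟩
        have c1 : b + i₀ - s + ((i - i₀ : ℕ) : ℤ) = b + i - s := by
          rw [Nat.cast_sub hle]; ring
        have c2 : b + i₀ - s + (((i - i₀) + 2 * s : ℕ) : ℤ) = b + i + s := by
          push_cast
          rw [Nat.cast_sub hle]; ring
        have heq' : idx K lam (b + i - s) = idx K lam (b + i + s) := by
          have := heq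
          simp only at this
          rwa [c1, c2] at this
        refine ⟨idx K lam (b + i - s), lam (idx K lam (b + i - s)), fun a' ha ha' => ?_⟩
        have d1 := idx_antitone hK lam ha
        have d2 := idx_antitone hK lam ha'
        rw [← heq'] at d2
        have d3 : idx K lam a' = idx K lam (b + i - s) := le_antisymm d1 d2
        obtain ⟨f1, f2, f3, -⟩ := idx_spec hK lam a'
        rw [d3] at f1 f2 f3
        obtain ⟨g1, i', g2, g3, g4⟩ := hlam a' (by omega) (by omega)
        have g5 := g1 _ f1 f2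
        have g6 := f3 i' g2 g3
        rw [abs_le]
        constructor <;> linarith
      · intro i hi i' hi' h
        have hle : i₀ ≤ i := Finset.min'_le _ _ hi
        have hle' : i₀ ≤ i' := Finset.min'_le _ _ hi'
        have h' : i - i₀ = i' - i₀ := h
        omega
    have hcard := card_ne_le (F := fun m : ℕ => idx K lam (b + i₀ - s + m)) (K := K)
      (N := L - i₀) (s := 2 * s) (fun i j hij _ => idx_antitone hK lam (by omega))
      (fun i => (idx_spec hK lam _).1) (fun i => (idx_spec hK lam _).2.1)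
    have : (S.card : ℤ) ≤ _ := le_trans (by exact_mod_cast hsub) hcard
    push_cast at this
    exact this

end Pool.THR2
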