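import Pool.Agent.H76.THR.Ball2

/-!
# The ball slope law from a slope law along most parallels of the diagonal

`diag_avg`: averaging over the parallels. `diag_ball`: the case of the thin zone, when the slope
law holds at all pairs outside exceptional sets (mixed rows included). `tilt_ball`: the case when
the precision of the tubes is `a + lam w` (one tilt path for every window).
-/

set_option autoImplicit false

namespace Pool.THR2

open Finset

open Classical in
/-- Averaging over the parallels of the diagonal. -/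
theorem diag_avg {h : ℕ → ℕ → ℤ} {D C : ℤ} {n M : ℕ} (hM : 0 < M) (hDC : 0 ≤ D + C)
    {Y : ℕ → Finset ℕ} {Rw : ℕ → ℕ → Prop} {β₂ : ℤ}
    (hgood : ∀ k < M, ∀ i < n, k ∉ Y i → Rw k i → h k i + D ≤ h k (i + 1))
    (hbad : ∀ k < M, ∀ i < n, h k i ≤ h k (i + 1) + C)
    (hvis : ∀ k < M, (((range n).filter fun i => ¬ Rw k i).card : ℤ) ≤ β₂) :
    ∃ k < M, ∃ β₁ : ℤ, 0 ≤ β₁ ∧ M * β₁ ≤ ∑ i ∈ range n, ((Y i).card : ℤ) ∧
      h k 0 + D * n - (D + C) * (β₁ + β₂) ≤ h k n := by
  classical
  set S1 : ℕ → Finset ℕ := fun k => (range n).filter fun i => k ∈ Y i with hS1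
  set S2 : ℕ → Finset ℕ := fun k => (range n).filter fun i => ¬ Rw k i with hS2
  have hsum1 : ∑ k ∈ range M, ((S1 k).card : ℤ) ≤ ∑ i ∈ range n, ((Y i).card : ℤ) := by
    have e1 : ∑ k ∈ range M, ((S1 k).card : ℤ) = ∑ i ∈ range n,
        (((range M).filter fun k => k ∈ Y i).card : ℤ) := by
      simp only [hS1, Finset.card_filter]
      push_cast
      rw [Finset.sum_comm]
    rw [e1]
    refine Finset.sum_le_sum fun i _ => ?_
    have : (range M).filter (fun k => k ∈ Y i) ⊆ Y i := fun k hk => (Finset.mem_filter.1 hk).2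
    exact_mod_cast Finset.card_le_card this
  obtain ⟨k, hk, hkle⟩ : ∃ k ∈ range M, M * ((S1 k).card : ℤ) ≤
      ∑ k ∈ range M, ((S1 k).card : ℤ) := by
    by_contra hcon
    push Not at hcon
    have hlt : ∑ k ∈ range M, ∑ k ∈ range M, ((S1 k).card : ℤ) < ∑ k ∈ range M,
        M * ((S1 k).card : ℤ) :=
      Finset.sum_lt_sum_of_nonempty (Finset.nonempty_range_iff.2 hM.ne') fun k hk => hcon k hk
    rw [Finset.sum_const, Finset.card_range, nsmul_eq_mul, ← Finset.mul_sum] at hlt
    exact lt_irrefl _ hlt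
  have hk' := Finset.mem_range.1 hk
  refine ⟨k, hk', (S1 k).card, by positivity, hkle.trans hsum1, ?_⟩
  have e1 := growth (h := h k) hDC (S1 k ∪ S2 k) n (fun i hi hb => ?_) (hbad k hk')
  · have e2 : ((S1 k ∪ S2 k).card : ℤ) ≤ (S1 k).card + (S2 k).card := by
      exact_mod_cast Finset.card_union_le _ _
    have e3 := hvis k hk'
    have e4 : (D + C) * ((S1 k ∪ S2 k).card : ℤ) ≤ (D + C) * ((S1 k).card + β₂) := by
      refine mul_le_mul_of_nonneg_left ?_ hDC
      have : ((S2 k).card : ℤ) ≤ β₂ := e3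
      linarith
    linarith
  · rw [Finset.mem_union, not_or] at hb
    refine hgood k hk' i hi (fun hc => hb.1 ?_) ?_
    · exact Finset.mem_filter.2 ⟨Finset.mem_range.2 hi, hc⟩
    · by_contra hc
      exact hb.2 (Finset.mem_filter.2 ⟨Finset.mem_range.2 hi, hc⟩)

open Classical in
/-- **Ball slope law**, when the slope law along the diagonal holds at all pairs outside the sets
`Y i`, as soon as the row is dense (`Dn`). -/
theorem diag_ball {p : ℤ → ℤ → ℤ} {g : ℤ → ℤ} {C D u wa q₀ H E β₂ : ℤ} {n M : ℕ} (hM : 0 < M)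
    (hDC : 0 ≤ D + C) {Dn : ℤ → ℤ → Prop} {Y : ℕ → Finset ℕ}
    (hgood : ∀ k < M, ∀ i < n, k ∉ Y i →
      Dn (wa + i * u) (p (wa + i * u + (q₀ + k)) (wa + i * u)) →
      p (wa + i * u + (q₀ + k)) (wa + i * u) + D ≤
        p (wa + i * u + (q₀ + k) + u) (wa + i * u + u))
    (hbad : ∀ k < M, ∀ i < n, p (wa + i * u + (q₀ + k)) (wa + i * u) ≤
      p (wa + i * u + (q₀ + k) + u) (wa + i * u + u) + C)
    (hvis : ∀ k < M, (((range n).filter fun i : ℕ =>
      ¬ Dn (wa + i * u) (p (wa + i * u + (q₀ + k)) (wa + i * u))).card : ℤ) ≤ β₂)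
    (hlow : ∀ k < M, g wa ≤ p (wa + (q₀ + k)) wa + E)
    (hupp : ∀ k < M, p (wa + n * u + (q₀ + k)) (wa + n * u) ≤ g (wa + n * u) + H) :
    ∃ β₁ : ℤ, 0 ≤ β₁ ∧ M * β₁ ≤ ∑ i ∈ range n, ((Y i).card : ℤ) ∧
      g wa + D * n - (D + C) * (β₁ + β₂) ≤ g (wa + n * u) + H + E := by
  have e1 : ∀ (i k : ℕ), wa + ((i + 1 : ℕ) : ℤ) * u + (q₀ + k) = wa + i * u + (q₀ + k) + u := by
    intro i k; push_cast; ring
  have e2 : ∀ i : ℕ, wa + ((i + 1 : ℕ) : ℤ) * u = wa + i * u + u := by
    intro i; push_cast; ring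
  obtain ⟨k, hk, β₁, h1, h2, h3⟩ := diag_avg
    (h := fun k i => p (wa + i * u + (q₀ + k)) (wa + i * u)) (D := D) (C := C) (n := n)
    (M := M) hM hDC (Y := Y)
    (Rw := fun k i => Dn (wa + i * u) (p (wa + i * u + (q₀ + k)) (wa + i * u))) (β₂ := β₂)
    (fun k hk i hi hy hr => by
      have := hgood k hk i hi hy hr
      rw [← e1, ← e2] at this
      exact this)
    (fun k hk i hi => by
      have := hbad k hk i hi
      rw [← e1, ← e2] at this
      exact this) hvis
  refine ⟨β₁, h1, h2, ?_⟩
  have h4 := hlow k hk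
  have h5 := hupp k hk
  simp only [Nat.cast_zero, zero_mul, add_zero] at h3
  linarith

open Classical in
/-- **Ball slope law**, when the tubes have the precision `a + lam w`: `lam` grows with slope `K`
at the windows outside `Y`. -/
theorem tilt_ball {g lam : ℤ → ℤ} {K C E u wa : ℤ} {n : ℕ} (hg : Monotone g) (hu : 0 < u)
    (hC : C ≤ u) (hK : 0 ≤ K) (hE : 0 ≤ E) (Y : Finset ℤ)
    (hl : ∀ w, wa ≤ w → w ≤ wa + u → g w ≤ w + lam w + E)
    (hr : ∀ w, wa ≤ w → w ≤ wa + (n + 1) * u → w ∉ Y → w + lam w ≤ g w + E)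
    (hmono : ∀ w, wa ≤ w → w + u ≤ wa + (n + 1) * u → lam w ≤ lam (w + u) + C)
    (hgood : ∀ w, wa ≤ w → w + u ≤ wa + (n + 1) * u → w ∉ Y → lam w + K * (u - C) ≤ lam (w + u)) :
    ∃ β : ℤ, 0 ≤ β ∧ u * β ≤ Y.card ∧
      g wa + (u + K * (u - C)) * (n - β) ≤ g (wa + (n + 1) * u) + 2 * E := by
  classical
  have hD : 0 ≤ u + K * (u - C) := by
    have := mul_nonneg hK (show 0 ≤ u - C by linarith)
    linarith
  set w : ℕ → ℕ → ℤ := fun r i => wa + r + i * u with hw
  set S : ℕ → Finset ℕ := fun r => (range (n + 1)).filter fun i => w r i ∈ Y with hS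
  set M := u.toNat with hM
  have hMu : (M : ℤ) = u := Int.toNat_of_nonneg hu.le
  have hM0 : 0 < M := by omega
  -- the sum over the offsets
  have hsum : ∑ r ∈ range M, ((S r).card : ℤ) ≤ Y.card := by
    have hdisj : ∀ r ∈ range M, ∀ r' ∈ range M, r ≠ r' →
        Disjoint ((S r).image (w r)) ((S r').image (w r')) := by
      intro r hr r' hr' hne
      rw [Finset.mem_range] at hr hr'
      refine Finset.disjoint_left.2 fun y hy hy' => hne ?_
      obtain ⟨i, -, hi⟩ := Finset.mem_image.1 hy
      obtain ⟨i', -, hi'⟩ := Finset.mem_image.1 hy'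
      have h1 : (r : ℤ) + i * u = r' + i' * u := by
        simp only [hw] at hi hi'
        linarith
      have h2 : (r : ℤ) < u := by omega
      have h3 : (r' : ℤ) < u := by omega
      have h4 : ((r : ℤ) + i * u) % u = r := by
        rw [Int.add_mul_emod_self_right]
        exact Int.emod_eq_of_lt (by positivity) h2
      have h5 : ((r' : ℤ) + i' * u) % u = r' := by
        rw [Int.add_mul_emod_self_right]
        exact Int.emod_eq_of_lt (by positivity) h3
      rw [h1, h5] at h4
      exact_mod_cast h4.symm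
    have h1 : ((range M).biUnion fun r => (S r).image (w r)).card ≤ Y.card := by
      refine Finset.card_le_card (Finset.biUnion_subset.2 fun r _ y hy => ?_)
      obtain ⟨i, hi, rfl⟩ := Finset.mem_image.1 hy
      exact (Finset.mem_filter.1 hi).2
    rw [Finset.card_biUnion hdisj] at h1
    have h2 : ∀ r ∈ range M, ((S r).image (w r)).card = (S r).card := by
      intro r _
      refine Finset.card_image_of_injOn fun i _ i' _ h => ?_
      have h' : (i : ℤ) * u = i' * u := by
        simp only [hw] at h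
        linarith
      have := mul_right_cancel₀ hu.ne' h'
      exact_mod_cast this
    rw [Finset.sum_congr rfl h2] at h1
    exact_mod_cast h1
  obtain ⟨r, hr', hrle⟩ : ∃ r ∈ range M, M * ((S r).card : ℤ) ≤
      ∑ r ∈ range M, ((S r).card : ℤ) := by
    by_contra hcon
    push Not at hcon
    have hlt : ∑ r ∈ range M, ∑ r ∈ range M, ((S r).card : ℤ) < ∑ r ∈ range M,
        M * ((S r).card : ℤ) :=
      Finset.sum_lt_sum_of_nonempty (Finset.nonempty_range_iff.2 hM0.ne') fun k hk => hcon k hk
    rw [Finset.sum_const, Finset.card_range, nsmul_eq_mul, ← Finset.mul_sum] at hlt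
    exact lt_irrefl _ hlt
  have hrM := Finset.mem_range.1 hr'
  have hru : (r : ℤ) < u := by omega
  refine ⟨(S r).card, by positivity, by rw [← hMu]; exact hrle.trans hsum, ?_⟩
  -- the last good index
  by_cases hex : ∃ i, i < n + 1 ∧ w r i ∉ Y
  · set i₁ := Nat.findGreatest (fun i => w r i ∉ Y) n with hi₁
    obtain ⟨i₂, j1, j2⟩ := hex
    have k1 : w r i₁ ∉ Y := Nat.findGreatest_spec (P := fun i => w r i ∉ Y) (m := i₂)
      (by omega) j2
    have k2 : i₁ ≤ n := Nat.findGreatest_le n
    have k3 : ∀ i, i₁ < i → i ≤ n → w r i ∈ Y := by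
      intro i h1 h2
      by_contra h3
      exact Nat.findGreatest_is_greatest h1 h2 h3
    have hwr : ∀ i : ℕ, i ≤ n → wa ≤ w r i ∧ w r i ≤ wa + (n + 1) * u ∧
        w r i ≤ wa + r + n * u := by
      intro i hi
      have h1 : 0 ≤ (i : ℤ) * u := by positivity
      have h2 : (i : ℤ) * u ≤ n * u :=
        mul_le_mul_of_nonneg_right (by exact_mod_cast hi) hu.le
      simp only [hw]
      refine ⟨by linarith [show (0 : ℤ) ≤ r by positivity], by linarith, by linarith⟩
    have hstep : ∀ i < i₁, w r i + u ≤ wa + (n + 1) * u := by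
      intro i hi
      have := (hwr (i + 1) (by omega)).2.1
      simp only [hw] at this ⊢
      push_cast at this
      linarith
    have e1 : ∀ i : ℕ, w r (i + 1) = w r i + u := by
      intro i; simp only [hw]; push_cast; ring
    have hgr := growth (h := fun i => w r i + lam (w r i)) (D := u + K * (u - C)) (C := 0)
      (by linarith) ((S r).filter fun i => i < i₁) i₁
      (fun i hi hb => by
        have h1 : w r i ∉ Y := fun hc => hb (Finset.mem_filter.2
          ⟨Finset.mem_filter.2 ⟨Finset.mem_range.2 (by omega), hc⟩, hi⟩)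
        have h2 := hgood (w r i) (hwr i (by omega)).1 (hstep i hi) h1
        simp only [e1]
        linarith)
      (fun i hi => by
        have h2 := hmono (w r i) (hwr i (by omega)).1 (hstep i hi)
        simp only [e1]
        linarith)
    have h4 := hr (w r i₁) (hwr i₁ k2).1 (hwr i₁ k2).2.1 k1
    have h5 : g (w r i₁) ≤ g (wa + (n + 1) * u) := hg (hwr i₁ k2).2.1
    have h6 : g wa ≤ g (w r 0) := hg (hwr 0 (by omega)).1
    have h7 := hl (w r 0) (hwr 0 (by omega)).1 (by
      simp only [hw, Nat.cast_zero, zero_mul, add_zero]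
      linarith)
    have h8 : (((S r).filter fun i => i < i₁).card : ℤ) + (n - i₁) ≤ (S r).card := by
      have hsub : ((S r).filter fun i => i < i₁) ∪ Finset.Ioc i₁ n ⊆ S r := by
        intro i hi
        rcases Finset.mem_union.1 hi with h | h
        · exact (Finset.mem_filter.1 h).1
        · rw [Finset.mem_Ioc] at h
          exact Finset.mem_filter.2 ⟨Finset.mem_range.2 (by omega), k3 i h.1 h.2⟩
      have hd : Disjoint ((S r).filter fun i => i < i₁) (Finset.Ioc i₁ n) := by
        refine Finset.disjoint_left.2 fun i hi hi' => ?_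
        rw [Finset.mem_filter] at hi
        rw [Finset.mem_Ioc] at hi'
        omega
      have h9 := Finset.card_le_card hsub
      rw [Finset.card_union_of_disjoint hd, Nat.card_Ioc] at h9
      omega
    have h10 : (u + K * (u - C)) * ((((S r).filter fun i => i < i₁).card : ℤ) + (n - i₁)) ≤
        (u + K * (u - C)) * (S r).card := mul_le_mul_of_nonneg_left h8 hD
    have e0 : w r 0 + lam (w r 0) + (u + K * (u - C)) * i₁ - (u + K * (u - C) + 0) *
        ((S r).filter fun i => i < i₁).card ≤ w r i₁ + lam (w r i₁) := hgr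
    rw [mul_add, mul_sub] at h10
    rw [mul_sub, add_zero] at *
    linarith
  · push Not at hex
    have h1 : S r = range (n + 1) := by
      refine Finset.filter_true_of_mem fun i hi => ?_
      exact hex i (Finset.mem_range.1 hi)
    have h2 : g wa ≤ g (wa + (n + 1) * u) := hg (by
      have : 0 ≤ ((n : ℤ) + 1) * u := by positivity
      linarith)
    rw [h1, Finset.card_range]
    push_cast
    nlinarith

end Pool.THR2
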