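import Pool.Agent.H76.THR.Avg

/-!
# The ball slope law

The precision of the balls grows with slope nearly `K + 1`, up to windows at which the rows are
not dense.
-/

set_option autoImplicit false

namespace Pool.THR2

open Finset

variable {p : ℤ → ℤ → ℤ} {g : ℤ → ℤ} {K C Q A B u : ℤ} {V : ℤ → ℤ → Prop}

/-- Separated values whose intervals lie in a finite set are few. -/
theorem card_sep {h : ℕ → ℤ} {d : ℤ} (hd : 0 ≤ d) (BP : Finset ℤ) (S : Finset ℕ)
    (hh : ∀ i ∈ S, ∀ j ∈ S, i < j → h i + d ≤ h j)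
    (hS : ∀ i ∈ S, Finset.Ico (h i) (h i + d) ⊆ BP) : d * S.card ≤ BP.card := by
  classical
  have hdisj : ∀ i ∈ S, ∀ j ∈ S, i ≠ j →
      Disjoint (Finset.Ico (h i) (h i + d)) (Finset.Ico (h j) (h j + d)) := by
    intro i hi j hj hne
    refine Finset.disjoint_left.2 fun y hy hy' => ?_
    rw [Finset.mem_Ico] at hy hy'
    rcases lt_or_gt_of_ne hne with hlt | hlt
    · have := hh i hi j hj hlt
      omega
    · have := hh j hj i hi hlt
      omega
  have h1 : (S.biUnion fun i => Finset.Ico (h i) (h i + d)).card ≤ BP.card :=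
    Finset.card_le_card (Finset.biUnion_subset.2 hS)
  rw [Finset.card_biUnion hdisj] at h1
  have h2 : ∑ i ∈ S, (Finset.Ico (h i) (h i + d)).card = S.card * d.toNat := by
    rw [Finset.sum_congr rfl fun i _ => (show (Finset.Ico (h i) (h i + d)).card = d.toNat by
      rw [Int.card_Ico]; congr 1; ring), Finset.sum_const, smul_eq_mul]
  rw [h2] at h1
  have h3 : ((S.card * d.toNat : ℕ) : ℤ) ≤ BP.card := by exact_mod_cast h1
  push_cast at h3
  rw [Int.toNat_of_nonneg hd] at h3
  linarith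

open Classical in
/-- **Ball slope law.** -/
theorem Zn.ball (hZ : Zn p g K C Q A B) (hg : Monotone g) (hdg : ∀ w, A ≤ w → w ≤ B →
    p w w = g w) (hV : Slope p K C Q A B u V) (hu : 0 ≤ u)
    {wa q₀ x r γ γ₀ ℓ R : ℤ} {n nD L s Nb : ℕ} (hI : LInt p g K C Q A B γ₀ ℓ) (hx0 : 0 ≤ x)
    (hx : K * x ≤ u - (K + 3) * C) (hA : A ≤ wa) (hr : 0 ≤ r) (hγp : 0 ≤ γ)
    (hℓ : (L : ℤ) + 2 * s ≤ ℓ) (hγ : γ₀ + K * ℓ + C ≤ γ) (hR : K * s + C + γ ≤ R)
    (huC : C < u) (hD0 : 0 ≤ (K + 1) * (u - C) - K - 5 * C) (hM : 0 < Nb * L)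
    (hQ : q₀ + (Nb * L : ℕ) + s + (r + γ + C) + u ≤ Q) (hn : nD * u ≤ q₀ - s) (hu' : u ≤ q₀)
    (hB : wa + (n + 1 + nD : ℕ) * u ≤ B) {Ok : ℤ → ℤ → Prop}
    (hOk : ∀ w P, Ok w P → Dense V C u x r γ R nD w P ∧ Near V C s w P)
    {Y : ℕ → Finset ℤ} {BP : Finset ℤ}
    (hbad : ∀ i : ℕ, i ≤ n → ∀ P, ¬ Ok (wa + i * u) P → P ∈ Y i ∨
      Finset.Ico P (P + (u - C)) ⊆ BP) :
    ∃ β₁ β₂ : ℤ, 0 ≤ β₁ ∧ 0 ≤ β₂ ∧
      (Nb * L : ℕ) * β₁ ≤ 2 * ((C + 1) * ∑ i ∈ range (n + 1), ((Y i).card : ℤ)) +
        n * (Nb * (2 * s * (K - 1))) ∧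
      (u - C) * β₂ ≤ BP.card ∧
      g wa + ((K + 1) * (u - C) - K - 5 * C) * (n - β₁ - 2 * β₂) ≤
        g (wa + n * u) + K * (q₀ + (Nb * L : ℕ)) + C := by
  classical
  have hC := hZ.C0
  have hK := hZ.K0
  have hs0 : (0 : ℤ) ≤ s := by positivity
  have hLs : 0 ≤ (L : ℤ) := by positivity
  have hnDu : 0 ≤ (nD : ℤ) * u := by positivity
  push_cast at hB
  have hγγ : γ₀ ≤ γ := by
    have : 0 ≤ K * ℓ := mul_nonneg (by linarith) (by linarith)
    linarith
  have hwi : ∀ i : ℕ, i ≤ n → wa ≤ wa + i * u ∧ wa + i * u + u + nD * u ≤ B := by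
    intro i hi
    have h1 : 0 ≤ (i : ℤ) * u := by positivity
    have h2 : (i : ℤ) * u ≤ n * u := mul_le_mul_of_nonneg_right (by exact_mod_cast hi) hu
    constructor <;> linarith
  -- the three kinds of bad indices
  set h : ℕ → ℕ → ℤ := fun k i => p (wa + i * u + (q₀ + k)) (wa + i * u) with hh
  set S1 : ℕ → Finset ℕ := fun k => (range (n + 1)).filter fun i => h k i ∈ Y i with hS1
  set S2 : ℕ → Finset ℕ := fun k => (range (n + 1)).filter fun i =>
    Finset.Ico (h k i) (h k i + (u - C)) ⊆ BP with hS2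
  set Cor : ℕ → ℕ → Prop := fun k i => (∀ a', wa + i * u + (q₀ + k) - s ≤ a' →
      a' ≤ wa + i * u + (q₀ + k) + s → γ ≤ g a' - p a' (wa + i * u)) ∧
      ¬ Reg p C s (wa + i * u + (q₀ + k)) (wa + i * u) with hCor
  set S3 : ℕ → Finset ℕ := fun k => (range n).filter fun i => Cor k i with hS3
  have hmono : ∀ k < Nb * L, ∀ i < n, h k i + (u - C) ≤ h k (i + 1) := by
    intro k hk i hi
    obtain ⟨w1, w2⟩ := hwi i (by omega)
    have hk' : (k : ℤ) < (Nb * L : ℕ) := by exact_mod_cast hk
    have := hZ.diag hu (a := wa + i * u + (q₀ + k)) (w := wa + i * u) (by linarith)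
      (by linarith) (by linarith) (by linarith) (by linarith) (by linarith)
    have e1 : wa + ((i + 1 : ℕ) : ℤ) * u + (q₀ + k) = wa + i * u + (q₀ + k) + u := by
      push_cast; ring
    have e2 : wa + ((i + 1 : ℕ) : ℤ) * u = wa + i * u + u := by push_cast; ring
    simp only [hh]
    rw [e1, e2]
    exact this
  have hsep : ∀ k < Nb * L, ∀ i j, i < j → j ≤ n → h k i + (u - C) ≤ h k j := by
    intro k hk i j hij
    induction j with
    | zero => omega
    | succ j ih =>
      intro hj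
      have h1 := hmono k hk j (by omega)
      rcases Nat.lt_succ_iff_lt_or_eq.1 hij with h2 | h2
      · have := ih h2 (by omega)
        linarith
      · rw [h2]; exact h1
  have hcount : ∀ k < Nb * L, ((badSet p Ok C s u wa n (q₀ + k)).card : ℤ) ≤
      2 * (S1 k).card + 2 * (S2 k).card + (S3 k).card := by
    intro k hk
    have hk' : (k : ℤ) < (Nb * L : ℕ) := by exact_mod_cast hk
    have hsub : badSet p Ok C s u wa n (q₀ + k) ⊆
        (S1 k ∪ S2 k) ∪ (((S1 k ∪ S2 k).image fun i => i - 1) ∪ S3 k) := by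
      intro i hi
      unfold badSet at hi
      rw [Finset.mem_filter, Finset.mem_range] at hi
      obtain ⟨hin, hi⟩ := hi
      obtain ⟨w1, w2⟩ := hwi i (by omega)
      by_cases o1 : Ok (wa + i * u) (p (wa + i * u + (q₀ + k)) (wa + i * u))
      · by_cases o2 : Ok (wa + (i + 1) * u)
            (p (wa + (i + 1) * u + (q₀ + k)) (wa + (i + 1) * u))
        · have o3 : ¬ Reg p C s (wa + i * u + (q₀ + k)) (wa + i * u) := fun o3 =>
            hi ⟨o1, o2, o3⟩
          refine Finset.mem_union_right _ (Finset.mem_union_right _ ?_)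
          refine Finset.mem_filter.2 ⟨Finset.mem_range.2 hin, ?_, o3⟩
          exact hZ.gapOn hV hu hx0 hx (by linarith) (hOk _ _ o1).1 hs0 hr hγp hR
            (by linarith) (by linarith) (by linarith)
        · refine Finset.mem_union_right _ (Finset.mem_union_left _ ?_)
          refine Finset.mem_image.2 ⟨i + 1, ?_, rfl⟩
          have e2 : wa + ((i + 1 : ℕ) : ℤ) * u = wa + (i + 1) * u := by push_cast; ring
          have o2' : ¬ Ok (wa + ((i + 1 : ℕ) : ℤ) * u) (h k (i + 1)) := by
            simp only [hh]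
            rw [e2]
            exact o2
          rcases hbad (i + 1) (by omega) _ o2' with h1 | h1
          · exact Finset.mem_union_left _ (Finset.mem_filter.2
              ⟨Finset.mem_range.2 (by omega), h1⟩)
          · exact Finset.mem_union_right _ (Finset.mem_filter.2
              ⟨Finset.mem_range.2 (by omega), h1⟩)
      · refine Finset.mem_union_left _ ?_
        rcases hbad i (by omega) _ o1 with h1 | h1
        · exact Finset.mem_union_left _ (Finset.mem_filter.2
            ⟨Finset.mem_range.2 (by omega), h1⟩)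
        · exact Finset.mem_union_right _ (Finset.mem_filter.2
            ⟨Finset.mem_range.2 (by omega), h1⟩)
    have c1 := Finset.card_le_card hsub
    have c2 := Finset.card_union_le (S1 k ∪ S2 k)
      (((S1 k ∪ S2 k).image fun i => i - 1) ∪ S3 k)
    have c3 := Finset.card_union_le ((S1 k ∪ S2 k).image fun i => i - 1) (S3 k)
    have c4 := Finset.card_union_le (S1 k) (S2 k)
    have c5 : ((S1 k ∪ S2 k).image fun i => i - 1).card ≤ (S1 k ∪ S2 k).card :=
      Finset.card_image_le
    omega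
  -- sums over `k`
  have hsum1 : ∑ k ∈ range (Nb * L), ((S1 k).card : ℤ) ≤
      (C + 1) * ∑ i ∈ range (n + 1), ((Y i).card : ℤ) := by
    have e1 : ∑ k ∈ range (Nb * L), ((S1 k).card : ℤ) = ∑ i ∈ range (n + 1),
        (((range (Nb * L)).filter fun k => h k i ∈ Y i).card : ℤ) := by
      simp only [hS1, Finset.card_filter]
      push_cast
      rw [Finset.sum_comm]
    rw [e1, Finset.mul_sum]
    refine Finset.sum_le_sum fun i hi => ?_
    have hi' := Finset.mem_range.1 hi
    obtain ⟨w1, w2⟩ := hwi i (by omega)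
    exact hZ.fibre (w := wa + i * u) (q₀ := q₀) (M := Nb * L) (by linarith) (by linarith)
      (by linarith) (by linarith) (Y i)
  have hsum3 : ∑ k ∈ range (Nb * L), ((S3 k).card : ℤ) ≤ n * (Nb * (2 * s * (K - 1))) := by
    have e1 : ∑ k ∈ range (Nb * L), ((S3 k).card : ℤ) = ∑ i ∈ range n,
        (((range (Nb * L)).filter fun k => Cor k i).card : ℤ) := by
      simp only [hS3, Finset.card_filter]
      push_cast
      rw [Finset.sum_comm]
    rw [e1]
    calc _ ≤ ∑ _i ∈ range n, (Nb * (2 * s * (K - 1)) : ℤ) := by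
          refine Finset.sum_le_sum fun i hi => ?_
          have hi' := Finset.mem_range.1 hi
          obtain ⟨w1, w2⟩ := hwi i (by omega)
          exact hZ.corners hg (w := wa + i * u) (q₀ := q₀) hI (by linarith) (by linarith)
            (by linarith) (by linarith) hℓ hγ
      _ = n * (Nb * (2 * s * (K - 1))) := by
          rw [Finset.sum_const, Finset.card_range, nsmul_eq_mul]
  obtain ⟨k, hk, hkle⟩ : ∃ k ∈ range (Nb * L), (Nb * L : ℕ) * (2 * ((S1 k).card : ℤ) +
      (S3 k).card) ≤ ∑ k ∈ range (Nb * L), (2 * ((S1 k).card : ℤ) + (S3 k).card) := by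
    by_contra hcon
    push Not at hcon
    have hlt : ∑ k ∈ range (Nb * L), ∑ k ∈ range (Nb * L), (2 * ((S1 k).card : ℤ) +
        (S3 k).card) < ∑ k ∈ range (Nb * L), (Nb * L : ℕ) * (2 * ((S1 k).card : ℤ) +
        (S3 k).card) :=
      Finset.sum_lt_sum_of_nonempty (Finset.nonempty_range_iff.2 hM.ne') fun k hk => hcon k hk
    rw [Finset.sum_const, Finset.card_range, nsmul_eq_mul, ← Finset.mul_sum] at hlt
    exact lt_irrefl _ hlt
  have hk' := Finset.mem_range.1 hk
  have hkz : (k : ℤ) < (Nb * L : ℕ) := by exact_mod_cast hk'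
  refine ⟨2 * (S1 k).card + (S3 k).card, (S2 k).card, by positivity, by positivity, ?_, ?_, ?_⟩
  · refine hkle.trans ?_
    rw [Finset.sum_add_distrib, ← Finset.mul_sum]
    linarith
  · refine card_sep (h := h k) (by linarith) BP (S2 k) ?_ ?_
    · intro i hi j hj hij
      rw [hS2, Finset.mem_filter, Finset.mem_range] at hi hj
      exact hsep k hk' i j hij (by omega)
    · intro i hi
      rw [hS2, Finset.mem_filter] at hi
      exact hi.2
  · have hpath := hZ.path hV hu (wa := wa) (q := q₀ + k) (s := s) (n := n) (nD := nD) hI hx0 hx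
      hA hs0 hr hγp hγγ (by linarith) hR (by linarith) hD0 (by linarith)
      (by linarith) (by linarith) (by push_cast; linarith) hOk
    obtain ⟨w1, w2⟩ := hwi n le_rfl
    have e1 : g wa ≤ p (wa + (q₀ + k)) wa := by
      rw [← hdg wa hA (by linarith)]
      exact hZ.ma hA (by linarith) le_rfl (by linarith) (by linarith)
    have e2 := hZ.up (a := wa + n * u) (a' := wa + n * u + (q₀ + k)) (w := wa + n * u)
      (by linarith) (by linarith) le_rfl (by linarith) (by linarith)
    rw [hdg (wa + n * u) (by linarith) (by linarith)] at e2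
    have e3 : K * (wa + n * u + (q₀ + k) - (wa + n * u)) ≤ K * (q₀ + (Nb * L : ℕ)) :=
      mul_le_mul_of_nonneg_left (by linarith) (by linarith)
    have e4 := hcount k hk'
    have e5 : ((K + 1) * (u - C) - K - 5 * C) * (n - (2 * (S1 k).card + (S3 k).card) -
        2 * (S2 k).card) ≤ ((K + 1) * (u - C) - K - 5 * C) *
        (n - (badSet p Ok C s u wa n (q₀ + k)).card) :=
      mul_le_mul_of_nonneg_left (by linarith) hD0
    linarith

end Pool.THR2
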