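import Pool.Agent.H76.THR.Corner

/-!
# The slope law along a parallel of the diagonal
-/

set_option autoImplicit false

namespace Pool.THR2

open Finset

variable {p : ℤ → ℤ → ℤ} {g : ℤ → ℤ} {K C Q A B u : ℤ} {V : ℤ → ℤ → Prop}

/-- The gap near a radius at which the rows are dense. -/
theorem Zn.gapOn (hZ : Zn p g K C Q A B) (hV : Slope p K C Q A B u V) (hu : 0 ≤ u)
    {a w s x r γ R : ℤ} {n : ℕ} (hx0 : 0 ≤ x) (hx : K * x ≤ u - (K + 3) * C) (hA : A ≤ w)
    (hD : Dense V C u x r γ R n w (p a w)) (hs : 0 ≤ s) (hr : 0 ≤ r) (hγ : 0 ≤ γ)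
    (hR : K * s + C + γ ≤ R) (hQ : a + s + (r + γ + C) ≤ w + Q) (hn : w + n * u ≤ a - s)
    (hB : w + n * u ≤ B) : ∀ α, a - s ≤ α → α ≤ a + s → γ ≤ g α - p α w := by
  intro α h1 h2
  have hK := hZ.K0
  have hC := hZ.C0
  have hun : 0 ≤ (n : ℤ) * u := by positivity
  have hb : |p α w - p a w| ≤ K * s + C := by
    rcases le_total a α with h | h
    · have k1 := hZ.ma (a := a) (a' := α) hA (by linarith) (by linarith) h (by linarith)
      have k2 := hZ.up (a := a) (a' := α) hA (by linarith) (by linarith) h (by linarith)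
      have k3 : K * (α - a) ≤ K * s := mul_le_mul_of_nonneg_left (by linarith) (by linarith)
      rw [abs_of_nonneg (by linarith)]
      linarith
    · have k1 := hZ.ma (a := α) (a' := a) hA (by linarith) (by linarith) h (by linarith)
      have k2 := hZ.up (a := α) (a' := a) hA (by linarith) (by linarith) h (by linarith)
      have k3 : K * (a - α) ≤ K * s := mul_le_mul_of_nonneg_left (by linarith) (by linarith)
      rw [abs_of_nonpos (by linarith)]
      linarith
  exact hZ.gap hV hu hx0 hx hA hD hr hγ (by linarith) (by linarith) (by linarith) hB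

/-- **One step.** -/
theorem Zn.step (hZ : Zn p g K C Q A B) (hV : Slope p K C Q A B u V) (hu : 0 ≤ u)
    {a w s x r γ γ₀ ℓ R : ℤ} {n : ℕ} (hI : LInt p g K C Q A B γ₀ ℓ) (hx0 : 0 ≤ x)
    (hx : K * x ≤ u - (K + 3) * C) (hA : A ≤ w) (hs : 0 ≤ s) (hr : 0 ≤ r) (hγ : 0 ≤ γ)
    (hγ₀ : γ₀ ≤ γ) (hℓ : 2 * s ≤ ℓ) (hR : K * s + C + γ ≤ R)
    (hQ : a + s + (r + γ + C) ≤ w + Q) (hn : w + n * u ≤ a - s) (hB : w + u + n * u ≤ B)
    (hreg : Reg p C s a w) (hN : Near V C s w (p a w))
    (hD : Dense V C u x r γ R n (w + u) (p (a + u) (w + u))) :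
    p a w + ((K + 1) * (u - C) - K - 5 * C) ≤ p (a + u) (w + u) := by
  have hC := hZ.C0
  have hun : 0 ≤ (n : ℤ) * u := by positivity
  have hgap := hZ.gapOn (a := a + u) (w := w + u) hV hu hx0 hx (by linarith) hD hs hr hγ hR
    (by linarith) (by linarith) hB
  obtain ⟨lam', hL⟩ := hI (w + u) (a + u - s) (a + u + s) (by linarith) (by linarith)
    (by linarith) (by linarith) (by linarith) (by linarith)
    (fun α h1 h2 => hγ₀.trans (hgap α h1 h2))
  have := hZ.mixed hV hu (a := a) (w := w) (s := s) (lam' := lam') hA (by linarith)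
    (by linarith) (by linarith) hreg hN hL
  linarith

/-- The trivial law along the diagonal. -/
theorem Zn.diag (hZ : Zn p g K C Q A B) (hu : 0 ≤ u) {a w : ℤ} (hA : A ≤ w) (hB : w + u ≤ B)
    (h1 : w ≤ a) (h2 : a ≤ w + Q) (h3 : a + u ≤ w + Q) (h4 : w + u ≤ a) :
    p a w + (u - C) ≤ p (a + u) (w + u) := by
  have k1 := hZ.lo (a := a) (a' := a + u) hA (by linarith) h1 (by linarith) (by linarith)
  have k2 := hZ.mw (a := a + u) (w := w) (w' := w + u) hA (by linarith) hB (by linarith)
    (by linarith)
  linarith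

open Classical in
/-- Bad indices of the path at the distance `q` from the diagonal. -/
noncomputable def badSet (p : ℤ → ℤ → ℤ) (Ok : ℤ → ℤ → Prop) (C s u wa : ℤ) (n : ℕ) (q : ℤ) :
    Finset ℕ :=
  (range n).filter fun i : ℕ => ¬ (Ok (wa + i * u) (p (wa + i * u + q) (wa + i * u)) ∧
    Ok (wa + (i + 1) * u) (p (wa + (i + 1) * u + q) (wa + (i + 1) * u)) ∧
    Reg p C s (wa + i * u + q) (wa + i * u))

/-- **Growth along a path.** -/
theorem Zn.path (hZ : Zn p g K C Q A B) (hV : Slope p K C Q A B u V) (hu : 0 ≤ u)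
    {wa q s x r γ γ₀ ℓ R : ℤ} {n nD : ℕ} (hI : LInt p g K C Q A B γ₀ ℓ) (hx0 : 0 ≤ x)
    (hx : K * x ≤ u - (K + 3) * C) (hA : A ≤ wa) (hs : 0 ≤ s) (hr : 0 ≤ r) (hγ : 0 ≤ γ)
    (hγ₀ : γ₀ ≤ γ) (hℓ : 2 * s ≤ ℓ) (hR : K * s + C + γ ≤ R) (huC : C ≤ u)
    (hD0 : 0 ≤ (K + 1) * (u - C) - K - 5 * C)
    (hQ : q + s + (r + γ + C) + u ≤ Q) (hn : nD * u ≤ q - s) (hu' : u ≤ q)
    (hB : wa + (n + nD : ℕ) * u ≤ B) {Ok : ℤ → ℤ → Prop}
    (hOk : ∀ w P, Ok w P → Dense V C u x r γ R nD w P ∧ Near V C s w P) :
    p (wa + q) wa + ((K + 1) * (u - C) - K - 5 * C) *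
      (n - (badSet p Ok C s u wa n q).card) ≤ p (wa + n * u + q) (wa + n * u) := by
  classical
  set D := (K + 1) * (u - C) - K - 5 * C with hD
  have hC := hZ.C0
  have key : ∀ m : ℕ, m ≤ n → p (wa + q) wa + D *
      (m - ((badSet p Ok C s u wa n q).filter fun i => i < m).card) ≤
      p (wa + m * u + q) (wa + m * u) := by
    intro m
    induction m with
    | zero =>
      intro _
      simp
    | succ m ih =>
      intro hm
      have ih' := ih (by omega)
      have hmu : 0 ≤ (m : ℤ) * u := by positivity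
      have hDu : 0 ≤ (nD : ℤ) * u := by positivity
      have hmn : ((m : ℤ) + 1) * u ≤ n * u :=
        mul_le_mul_of_nonneg_right (by exact_mod_cast hm) hu
      push_cast at hB
      have e1 : wa + ((m + 1 : ℕ) : ℤ) * u = wa + m * u + u := by push_cast; ring
      have e2 : wa + ((m + 1 : ℕ) : ℤ) * u + q = wa + m * u + q + u := by push_cast; ring
      have hstep0 : p (wa + m * u + q) (wa + m * u) + (u - C) ≤
          p (wa + m * u + q + u) (wa + m * u + u) :=
        hZ.diag hu (by linarith) (by linarith) (by linarith) (by linarith) (by linarith)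
          (by linarith)
      rw [e2, e1]
      by_cases hb : m ∈ badSet p Ok C s u wa n q
      · have hcard : ((badSet p Ok C s u wa n q).filter fun i => i < m + 1).card =
            ((badSet p Ok C s u wa n q).filter fun i => i < m).card + 1 := by
          have : ((badSet p Ok C s u wa n q).filter fun i => i < m + 1) =
              insert m ((badSet p Ok C s u wa n q).filter fun i => i < m) := by
            ext i
            simp only [Finset.mem_filter, Finset.mem_insert]
            constructor
            · rintro ⟨h1, h2⟩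
              rcases Nat.lt_succ_iff_lt_or_eq.1 h2 with h3 | h3
              · exact Or.inr ⟨h1, h3⟩
              · exact Or.inl h3
            · rintro (h | ⟨h1, h2⟩)
              · exact ⟨h ▸ hb, by omega⟩
              · exact ⟨h1, by omega⟩
          rw [this, Finset.card_insert_of_notMem (by simp)]
        rw [hcard]
        push_cast
        have : D * ((m : ℤ) + 1 - (((badSet p Ok C s u wa n q).filter fun i => i < m).card + 1)) =
            D * (m - ((badSet p Ok C s u wa n q).filter fun i => i < m).card) := by ring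
        rw [this]
        linarith
      · have hcard : ((badSet p Ok C s u wa n q).filter fun i => i < m + 1) =
            ((badSet p Ok C s u wa n q).filter fun i => i < m) := by
          ext i
          simp only [Finset.mem_filter]
          constructor
          · rintro ⟨h1, h2⟩
            rcases Nat.lt_succ_iff_lt_or_eq.1 h2 with h3 | h3
            · exact ⟨h1, h3⟩
            · exact absurd (h3 ▸ h1) hb
          · rintro ⟨h1, h2⟩
            exact ⟨h1, by omega⟩
        rw [hcard]
        unfold badSet at hb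
        rw [Finset.mem_filter, not_and_not_right] at hb
        obtain ⟨o1, o2, o3⟩ := hb (Finset.mem_range.2 (by omega))
        have e3 : wa + ((m : ℤ) + 1) * u = wa + m * u + u := by ring
        have e4 : wa + m * u + u + q = wa + m * u + q + u := by ring
        rw [e3, e4] at o2
        have hst := hZ.step hV hu (a := wa + m * u + q) (w := wa + m * u) hI hx0 hx
          (by linarith) hs hr hγ hγ₀ hℓ hR (by linarith) (by linarith) (by linarith) o3
          (hOk _ _ o1).2 (hOk _ _ o2).1
        push_cast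
        have : D * ((m : ℤ) + 1 - ((badSet p Ok C s u wa n q).filter fun i => i < m).card) =
            D * (m - ((badSet p Ok C s u wa n q).filter fun i => i < m).card) + D := by ring
        rw [this]
        linarith
  have hfin := key n le_rfl
  have hall : ((badSet p Ok C s u wa n q).filter fun i => i < n) = badSet p Ok C s u wa n q := by
    refine Finset.filter_true_of_mem fun i hi => ?_
    unfold badSet at hi
    exact Finset.mem_range.1 (Finset.mem_filter.1 hi).1
  rwa [hall] at hfin

end Pool.THR2
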