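import Mathlib

/-!
# The threshold lemma in the thin zone

`p a w` is the precision reached at the radius `a` and the window `w` (both are exponents),
`g a` is the precision reached on balls. The zone is `w ≤ a ≤ w + Q`. At good pairs
(window `w`, row `P`) a slope law holds. We show that the precision grows with the slope `K + 1`
along every parallel of the diagonal, except at few windows, if the good rows are dense.
-/

set_option autoImplicit false

namespace Pool.THR2

open Finset

/-- The precisions in the zone `w ≤ a ≤ w + Q`, for windows in `[A, B]`. -/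
structure Zn (p : ℤ → ℤ → ℤ) (g : ℤ → ℤ) (K C Q A B : ℤ) : Prop where
  K0 : 1 ≤ K
  C0 : 0 ≤ C
  Q0 : 0 ≤ Q
  /-- monotone in the radius -/
  ma : ∀ {a a' w}, A ≤ w → w ≤ B → w ≤ a → a ≤ a' → a' ≤ w + Q → p a w ≤ p a' w
  /-- monotone in the window -/
  mw : ∀ {a w w'}, A ≤ w → w ≤ w' → w' ≤ B → w' ≤ a → a ≤ w + Q → p a w ≤ p a w'
  /-- Lipschitz in the radius -/
  up : ∀ {a a' w}, A ≤ w → w ≤ B → w ≤ a → a ≤ a' → a' ≤ w + Q →
    p a' w ≤ p a w + K * (a' - a) + C
  /-- the trivial law -/
  lo : ∀ {a a' w}, A ≤ w → w ≤ B → w ≤ a → a ≤ a' → a' ≤ w + Q →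
    p a w + (a' - a) - C ≤ p a' w
  /-- tubes are not better than balls -/
  cap : ∀ {a w}, A ≤ w → w ≤ B → w ≤ a → a ≤ w + Q → p a w ≤ g a

/-- The slope law at the good pairs: `a` is the first radius at which the row `P` is reached. -/
def Slope (p : ℤ → ℤ → ℤ) (K C Q A B u : ℤ) (V : ℤ → ℤ → Prop) : Prop :=
  ∀ w P, A ≤ w → w + u ≤ B → V w P → ∀ a, w ≤ a → a ≤ w + Q → P ≤ p a w →
    (∀ b, w ≤ b → b < a → p b w < P) → P + (K + 1) * (u - C) ≤ p (a + u) (w + u)

variable {p : ℤ → ℤ → ℤ} {g : ℤ → ℤ} {K C Q A B u : ℤ} {V : ℤ → ℤ → Prop}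

/-- The first radius at which a row is reached. -/
theorem exists_first {w a₀ P : ℤ} (h : w ≤ a₀) (hP : P ≤ p a₀ w) :
    ∃ a, w ≤ a ∧ a ≤ a₀ ∧ P ≤ p a w ∧ ∀ b, w ≤ b → b < a → p b w < P := by
  classical
  have hex : ∃ n : ℕ, P ≤ p (w + n) w := ⟨(a₀ - w).toNat, by
    rw [Int.toNat_of_nonneg (by omega)]
    convert hP using 2
    ring⟩
  refine ⟨w + Nat.find hex, by omega, ?_, Nat.find_spec hex, ?_⟩
  · have : Nat.find hex ≤ (a₀ - w).toNat := Nat.find_min' hex (by
      rw [Int.toNat_of_nonneg (by omega)]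
      convert hP using 2
      ring)
    omega
  · intro b hb hb'
    have h1 : (b - w).toNat < Nat.find hex := by omega
    have h2 := Nat.find_min hex h1
    rw [Int.toNat_of_nonneg (by omega)] at h2
    have h3 : w + (b - w) = b := by ring
    rw [h3] at h2
    exact not_le.mp h2

open Classical in
/-- **The level curve of a row cannot cross a radius of small gap.** -/
theorem Zn.level (hZ : Zn p g K C Q A B) (hV : Slope p K C Q A B u V) (hu : 0 ≤ u)
    {α w₀ P x : ℤ} (hx0 : 0 ≤ x) (hx : K * x ≤ u - (K + 3) * C) (hA : A ≤ w₀)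
    (hP : g α < P) (hαQ : α ≤ w₀ + Q) (hQ : α + (P - p α w₀ + C) ≤ w₀ + Q) (n : ℕ)
    (hn : w₀ + n * u ≤ α) (hB : w₀ + n * u ≤ B) :
    x * ((range n).filter fun i : ℕ => V (w₀ + i * u) P).card ≤ P - p α w₀ + C := by
  have hK := hZ.K0
  have hC := hZ.C0
  have hun : 0 ≤ (n : ℤ) * u := by positivity
  have hw₀ : w₀ ≤ B := by linarith
  have hα : w₀ ≤ α := by linarith
  have hcap0 : p α w₀ ≤ g α := hZ.cap hA hw₀ hα hαQ
  have h0 : 0 ≤ P - p α w₀ + C := by linarith
  -- the first radius at the first window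
  have hlo := hZ.lo (a := α) (a' := α + (P - p α w₀ + C)) hA hw₀ hα (by linarith) hQ
  have key : ∀ j : ℕ, j ≤ n → ∃ a, α < a ∧
      a + x * ((range j).filter fun i : ℕ => V (w₀ + i * u) P).card ≤
        α + (P - p α w₀ + C) ∧ P ≤ p a (w₀ + j * u) ∧
      ∀ b, w₀ + j * u ≤ b → b < a → p b (w₀ + j * u) < P := by
    intro j
    induction j with
    | zero =>
      intro _
      obtain ⟨a, h1, h2, h3, h4⟩ := exists_first (p := p) (w := w₀)
        (a₀ := α + (P - p α w₀ + C)) (P := P) (by linarith) (by linarith)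
      refine ⟨a, ?_, by simpa using h2, by simpa using h3, by simpa using h4⟩
      by_contra h
      push Not at h
      have := hZ.ma hA hw₀ h1 h hαQ
      linarith
    | succ j ih =>
      intro hj
      obtain ⟨a, h1, h2, h3, h4⟩ := ih (by omega)
      have hjn : ((j : ℤ) + 1) * u ≤ n * u :=
        mul_le_mul_of_nonneg_right (by exact_mod_cast hj) hu
      have e1 : w₀ + ((j + 1 : ℕ) : ℤ) * u = w₀ + j * u + u := by push_cast; ring
      have hju : 0 ≤ (j : ℤ) * u := by positivity
      have hcard : 0 ≤ x * (((range j).filter fun i : ℕ => V (w₀ + i * u) P).card : ℤ) := by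
        positivity
      have hw1 : w₀ + j * u + u ≤ α := by linarith
      have hw2 : w₀ + j * u + u ≤ B := by linarith
      have haQ : a ≤ w₀ + Q := by linarith
      -- all radii up to `α` are below the row at the next window
      have hbelow : ∀ b, w₀ + j * u + u ≤ b → b ≤ α → p b (w₀ + j * u + u) < P := by
        intro b hb hb'
        have k1 := hZ.ma (a := b) (a' := α) (w := w₀ + j * u + u) (by linarith) hw2 hb hb'
          (by linarith)
        have k2 := hZ.cap (a := α) (w := w₀ + j * u + u) (by linarith) hw2 (by linarith)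
          (by linarith)
        linarith
      rw [e1]
      by_cases hg : V (w₀ + j * u) P
      · have hs := hV (w₀ + j * u) P (by linarith) hw2 hg a (by linarith) (by linarith) h3 h4
        have hlow : ∀ b, α ≤ b → b ≤ a + u → a - x ≤ b → P ≤ p b (w₀ + j * u + u) := by
          intro b hb hb' hxb
          have k1 := hZ.up (a := b) (a' := a + u) (w := w₀ + j * u + u) (by linarith) hw2
            (by linarith) hb' (by linarith)
          have k2 : K * (a + u - b) ≤ K * (u + x) :=
            mul_le_mul_of_nonneg_left (by linarith) (by linarith)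
          linarith
        have hxa : α < a - x := by
          by_contra h
          push Not at h
          have k1 := hlow α le_rfl (by linarith) h
          have k2 := hbelow α hw1 le_rfl
          linarith
        obtain ⟨a', g1, g2, g3, g4⟩ := exists_first (p := p) (w := w₀ + j * u + u)
          (a₀ := a - x) (P := P) (by linarith)
          (hlow (a - x) hxa.le (by linarith) le_rfl)
        refine ⟨a', ?_, ?_, g3, g4⟩
        · by_contra h
          push Not at h
          have := hbelow a' g1 h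
          linarith
        · rw [Finset.range_add_one, Finset.filter_insert, if_pos hg,
            Finset.card_insert_of_notMem (by simp)]
          push_cast
          linarith
      · have hmw := hZ.mw (a := a) (w := w₀ + j * u) (w' := w₀ + j * u + u) (by linarith)
          (by linarith) hw2 (by linarith) (by linarith)
        obtain ⟨a', g1, g2, g3, g4⟩ := exists_first (p := p) (w := w₀ + j * u + u)
          (a₀ := a) (P := P) (by linarith) (by linarith)
        refine ⟨a', ?_, ?_, g3, g4⟩
        · by_contra h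
          push Not at h
          have := hbelow a' g1 h
          linarith
        · rw [Finset.range_add_one, Finset.filter_insert, if_neg hg]
          linarith
  obtain ⟨a, h1, h2, -, -⟩ := key n le_rfl
  linarith

open Classical in
/-- The rows near `P` are dense at the windows after `w`: every interval of length `r` near `P`
contains a row which is good at many windows. -/
def Dense (V : ℤ → ℤ → Prop) (C u x r γ R : ℤ) (n : ℕ) (w P : ℤ) : Prop :=
  ∀ g₀, |g₀ - P| ≤ R → ∃ P', g₀ < P' ∧ P' ≤ g₀ + r ∧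
    r + γ + C < x * ((range n).filter fun i : ℕ => V (w + i * u) P').card

/-- **The gap.** -/
theorem Zn.gap (hZ : Zn p g K C Q A B) (hV : Slope p K C Q A B u V) (hu : 0 ≤ u)
    {α w P x r γ R : ℤ} {n : ℕ} (hx0 : 0 ≤ x) (hx : K * x ≤ u - (K + 3) * C) (hA : A ≤ w)
    (hD : Dense V C u x r γ R n w P) (hr : 0 ≤ r) (hγ : 0 ≤ γ) (hR : |p α w - P| + γ ≤ R)
    (hQ : α + (r + γ + C) ≤ w + Q) (hn : w + n * u ≤ α) (hB : w + n * u ≤ B) :
    γ ≤ g α - p α w := by
  have hK := hZ.K0
  have hC := hZ.C0
  have hun : 0 ≤ (n : ℤ) * u := by positivity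
  by_contra h
  push Not at h
  have hcap : p α w ≤ g α := hZ.cap hA (by linarith) (by linarith) (by linarith)
  obtain ⟨P', h1, h2, h3⟩ := hD (g α) (by
    rw [abs_le] at *
    have h4 := abs_le.1 (show |p α w - P| ≤ R - γ by linarith)
    constructor <;> linarith [h4.1, h4.2])
  have h5 := hZ.level hV hu hx0 hx hA h1 (by linarith) (by linarith) n hn hB
  linarith

/-! ### Minima of linear functions -/

/-- Local integrality: where the gap is at least `γ₀`, the precision is locally the minimum of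
linear functions with slopes `1, .., K`. -/
def LInt (p : ℤ → ℤ → ℤ) (g : ℤ → ℤ) (K C Q A B γ₀ ℓ : ℤ) : Prop :=
  ∀ w a₁ a₂, A ≤ w → w ≤ B → w ≤ a₁ → a₁ ≤ a₂ → a₂ ≤ w + Q → a₂ - a₁ ≤ ℓ →
    (∀ a, a₁ ≤ a → a ≤ a₂ → γ₀ ≤ g a - p a w) → ∃ lam : ℤ → ℤ, ∀ a, a₁ ≤ a → a ≤ a₂ →
      (∀ j, 1 ≤ j → j ≤ K → p a w ≤ j * a + lam j + C) ∧
      ∃ j, 1 ≤ j ∧ j ≤ K ∧ j * a + lam j - C ≤ p a w

/-- The precision is nearly linear on `[a - s, a + s]`. -/
def Reg (p : ℤ → ℤ → ℤ) (C s a w : ℤ) : Prop :=
  ∃ j lam : ℤ, ∀ a', a - s ≤ a' → a' ≤ a + s → |p a' w - (j * a' + lam)| ≤ C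

/-- There are good rows just below and just above `P`. -/
def Near (V : ℤ → ℤ → Prop) (C s w P : ℤ) : Prop :=
  (∃ P', P - s + C < P' ∧ P' ≤ P ∧ V w P') ∧ ∃ P', P < P' ∧ P' ≤ P + s - C ∧ V w P'

/-- **Mixed rows.** The slope law holds at a row between two good rows, whether it is good or
not. -/
theorem Zn.mixed (hZ : Zn p g K C Q A B) (hV : Slope p K C Q A B u V) (hu : 0 ≤ u)
    {a w s : ℤ} {lam' : ℤ → ℤ} (hA : A ≤ w) (hB : w + u ≤ B)
    (h1 : w ≤ a - s) (h2 : a + s ≤ w + Q) (hreg : Reg p C s a w) (hN : Near V C s w (p a w))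
    (hL : ∀ a', a + u - s ≤ a' → a' ≤ a + u + s →
      (∀ j, 1 ≤ j → j ≤ K → p a' (w + u) ≤ j * a' + lam' j + C) ∧
      ∃ j, 1 ≤ j ∧ j ≤ K ∧ j * a' + lam' j - C ≤ p a' (w + u)) :
    p a w + (K + 1) * (u - C) - K - 5 * C ≤ p (a + u) (w + u) := by
  have hK := hZ.K0
  have hC := hZ.C0
  obtain ⟨j, lam, hj⟩ := hreg
  obtain ⟨⟨P₁, q1, q2, q3⟩, ⟨P₂, r1, r2, r3⟩⟩ := hN
  have hwB : w ≤ B := by linarith
  -- the first radii
  have k1 := hZ.lo (a := a - s) (a' := a) hA hwB h1 (by linarith) (by linarith)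
  have k2 := hZ.lo (a := a) (a' := a + s) hA hwB (by linarith) (by linarith) h2
  obtain ⟨a₁, s1, s2, s3, s4⟩ := exists_first (p := p) (w := w) (a₀ := a) (P := P₁)
    (by linarith) q2
  obtain ⟨a₂, t1, t2, t3, t4⟩ := exists_first (p := p) (w := w) (a₀ := a + s) (P := P₂)
    (by linarith) (by linarith)
  have s5 : a - s < a₁ := by
    by_contra h
    push Not at h
    have := hZ.ma hA hwB s1 h (by linarith)
    linarith
  have t5 : a < a₂ := by
    by_contra h
    push Not at h
    have := hZ.ma hA hwB t1 h (by linarith)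
    linarith
  have s6 := hV w P₁ hA hB q3 a₁ s1 (by linarith) s3 s4
  have t6 := hV w P₂ hA hB r3 a₂ t1 (by linarith) t3 t4
  have s7 := s4 (a₁ - 1) (by linarith) (by linarith)
  have t7 := t4 (a₂ - 1) (by linarith) (by linarith)
  have s8 := hZ.up (a := a₁ - 1) (a' := a₁) hA hwB (by linarith) (by linarith) (by linarith)
  have t8 := hZ.up (a := a₂ - 1) (a' := a₂) hA hwB (by linarith) (by linarith) (by linarith)
  have s9 := abs_le.1 (hj a₁ (by linarith) (by linarith))
  have t9 := abs_le.1 (hj a₂ (by linarith) (by linarith))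
  have e9 := abs_le.1 (hj a (by linarith) (by linarith))
  obtain ⟨-, i, i1, i2, i3⟩ := hL (a + u) (by linarith) (by linarith)
  have u1 := (hL (a₁ + u) (by linarith) (by linarith)).1 i i1 i2
  have u2 := (hL (a₂ + u) (by linarith) (by linarith)).1 i i1 i2
  have v1 : 0 ≤ (i - j) * a₁ + (i * u + lam' i - lam - (K + 1) * (u - C) + K + 3 * C) := by
    linarith
  have v2 : 0 ≤ (i - j) * a₂ + (i * u + lam' i - lam - (K + 1) * (u - C) + K + 3 * C) := by
    linarith
  have v3 : 0 ≤ (i - j) * a + (i * u + lam' i - lam - (K + 1) * (u - C) + K + 3 * C) := by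
    rcases le_total j i with h | h
    · have : (i - j) * a₁ ≤ (i - j) * a := mul_le_mul_of_nonneg_left s2 (by linarith)
      linarith
    · have : (i - j) * a₂ ≤ (i - j) * a := by
        have := mul_le_mul_of_nonneg_left t5.le (show 0 ≤ j - i by linarith)
        linarith
      linarith
  linarith

end Pool.THR2
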